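import Pool.Agent.P.MP_0ad054_nt.BG.Defs
import Pool.Agent.P.MP_0ad054_nt.Sun.Gamma
import Pool.Agent.P.MP_0ad054_nt.Sun.Arith

/-! Angular equidistribution on average from the bound for the generating series. -/

namespace Pool.Agent.P.MP_0ad054_nt.BG

open Finset MeasureTheory Complex Pool.Agent.Lib.H9 Pool.Agent.P.MP_0ad054_nt.Sun
  Pool.Agent.P.MP_0ad054_nt.Sun.SphereP

namespace AngP0

open GammaP

theorem norm_sm {ν : Measure ℝ} (h : IsNu ν) (η : ℝ) (n : ℤ) : ‖sm ν η n‖ ≤ 1 := by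
  have := h.1
  have := norm_integral_le_of_norm_le_const (μ := ν) (f := fun t : ℝ => e (η * (t * n))) (C := 1)
    (Filter.Eventually.of_forall fun t => (norm_e _).le)
  simpa [sm] using this

theorem sum_fr (n : ℕ) : ∑ a ∈ fr n, 1 / (a.den : ℝ) ^ 3 ≤ 8 := by
  have hT : ∀ θ ∈ fr n, (-1 : ℚ) ≤ θ ∧ θ ≤ -1 + 3 := fun θ hθ => by
    have := (mem_filter.1 hθ).2
    exact ⟨this.1, by linarith [this.2]⟩
  set B := (fr n).sup (fun θ : ℚ => θ.den) + 1
  rw [← sum_fiberwise_of_maps_to (g := fun θ : ℚ => θ.den) (t := Ioo 0 B)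
    (fun θ hθ => mem_Ioo.2 ⟨θ.pos, Nat.lt_succ_of_le (le_sup (f := fun θ : ℚ => θ.den) hθ)⟩)]
  have h2 := sum_Ioo_inv_sq_le (α := ℝ) 0 B
  calc _ ≤ ∑ d ∈ Ioo 0 B, 4 * ((d : ℝ) ^ 2)⁻¹ := by
        refine sum_le_sum fun d hd => ?_
        have d1 : (1 : ℝ) ≤ d := by exact_mod_cast (mem_Ioo.1 hd).1
        rw [sum_congr rfl (g := fun _ => 1 / (d : ℝ) ^ 3) fun θ hθ => by rw [(mem_filter.1 hθ).2],
          sum_const, nsmul_eq_mul]
        have : (((fr n).filter fun θ => θ.den = d).card : ℝ) ≤ 3 * d + 1 := by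
          exact_mod_cast ArithP.count_den (fr n) (-1) hT d
        calc _ ≤ (4 * d) * (1 / (d : ℝ) ^ 3) := by gcongr; linarith
          _ = _ := by field_simp
    _ ≤ 8 := by
        rw [← mul_sum]
        norm_num at h2 ⊢
        linarith

theorem approx {N : ℕ} {Q x : ℝ} (hQ : 1 ≤ Q) (hQN : Q ^ 1000 = N)
    (hx : x ∈ Set.Icc (0 : ℝ) 1) : ∃ a ∈ fr (Nat.sqrt N),
      |x - a| ≤ 1 / (Q ^ 500 * a.den) ∧ (a.den : ℝ) ≤ Q ^ 500 := by
  have hN1 : 1 ≤ N := by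
    have : (1 : ℝ) ≤ N := hQN ▸ one_le_pow₀ hQ
    exact_mod_cast this
  obtain ⟨a, ha1, ha2⟩ := Real.exists_rat_abs_sub_le_and_den_le x (Nat.sqrt_pos.2 hN1)
  have hq1 : (1 : ℝ) ≤ a.den := by exact_mod_cast a.pos
  have hs1 : (Nat.sqrt N : ℝ) ≤ Q ^ 500 := by
    refine le_of_sq_le_sq ?_ (by positivity)
    rw [← pow_mul, hQN]
    exact_mod_cast Nat.sqrt_le' N
  have hs2 : Q ^ 500 ≤ (Nat.sqrt N : ℝ) + 1 := by
    refine le_of_sq_le_sq ?_ (by positivity)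
    rw [← pow_mul, hQN]
    exact_mod_cast (Nat.lt_succ_sqrt' N).le
  have ht : |x - a| ≤ 1 / (Q ^ 500 * a.den) := ha1.trans (by gcongr)
  have ht1 : |x - a| ≤ 1 := by
    refine ht.trans ?_
    rw [div_le_one (by positivity)]
    exact one_le_mul_of_one_le_of_one_le (one_le_pow₀ hQ) hq1
  have b := abs_le.1 ht1
  refine ⟨a, mem_fr ?_ ?_ ha2, ht, le_trans (by exact_mod_cast ha2) hs1⟩
  · have : (-1 : ℝ) ≤ a := by linarith [hx.1]
    exact_mod_cast this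
  · have : (a : ℝ) ≤ 2 := by linarith [hx.2]
    exact_mod_cast this

theorem bes {N : ℕ} (hN : 1 ≤ N) (ψ : (Fin 4 → ℤ) → ℂ) (hψ : ∀ v, ‖ψ v‖ ≤ 2) {G : ℝ → ℝ}
    (hG : Continuous G) (hB : ∀ x ∈ Set.Icc (0 : ℝ) 1,
      ‖∑' v, ψ v * ee (((x : ℂ) + ((1 / (N : ℝ) : ℝ) : ℂ) * I) * nsq v)‖ ^ 2 ≤ G x) :
    ∑ n ∈ Icc (0 : ℤ) N, ‖∑ v ∈ sphere n, ψ v‖ ^ 2 ≤
      Real.exp (2 * Real.pi) ^ 2 * ∫ x in (0 : ℝ)..1, G x := by
  have hN1 : (1 : ℝ) ≤ N := by exact_mod_cast hN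
  have hy : (0 : ℝ) < 1 / N := by positivity
  have hs : Summable fun v => ‖ψ v * ee (((1 / (N : ℝ) : ℝ) : ℂ) * I * nsq v)‖ := by
    refine ((summable_norm_ee_nsq (τ := ((1 / (N : ℝ) : ℝ) : ℂ) * I)
      (by rw [Complex.mul_I_im, Complex.ofReal_re]; exact hy)).mul_left 2).of_nonneg_of_le
      (fun _ => norm_nonneg _) fun v => ?_
    rw [norm_mul]
    exact mul_le_mul_of_nonneg_right (hψ v) (norm_nonneg _)
  have hb := bessel_int (fun v => ψ v * ee (((1 / (N : ℝ) : ℝ) : ℂ) * I * nsq v)) nsq hs hG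
    (fun x hx => by
      refine le_of_eq_of_le ?_ (hB x hx)
      congr 2
      refine tsum_congr fun v => ?_
      rw [mul_assoc, ← ee_add]
      congr 2
      ring) (Icc (0 : ℤ) N)
  refine le_trans ?_ (mul_le_mul_of_nonneg_left hb (by positivity))
  rw [mul_sum]
  refine sum_le_sum fun n hn => ?_
  rw [← mul_pow, tsum_ite_nsq]
  have e1 : ∑ v ∈ sphere n, ψ v * ee (((1 / (N : ℝ) : ℝ) : ℂ) * I * nsq v) =
      (∑ v ∈ sphere n, ψ v) * ee (((1 / (N : ℝ) : ℝ) : ℂ) * I * n) := by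
    rw [sum_mul]
    exact sum_congr rfl fun v hv => by rw [mem_sphere.1 hv]
  rw [e1, norm_mul, norm_ee]
  have e2 : ((((1 / N : ℝ) : ℂ)) * I * n).im = n / N := by
    rw [show (((1 / N : ℝ) : ℂ)) * I * n = ((n / N : ℝ) : ℂ) * I by push_cast; ring]
    rw [Complex.mul_I_im, Complex.ofReal_re]
  rw [e2, mul_left_comm, ← Real.exp_add]
  gcongr
  refine le_mul_of_one_le_right (norm_nonneg _) (Real.one_le_exp ?_)
  have : (n : ℝ) / N ≤ 1 := by
    rw [div_le_one (by positivity)]; exact_mod_cast (mem_Icc.1 hn).2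
  nlinarith [Real.pi_pos]

end AngP0

open AngP0 GammaP in
theorem pAng (h : S_Sup) : S_Ang := by
  intro ν hν
  obtain ⟨C, hC, h1⟩ := h ν hν
  refine ⟨Real.exp (2 * Real.pi) ^ 2 * (33 * C), by positivity, ?_⟩
  intro N d φ η hN hd hdQ hper hφ hη
  have hN1 : (1 : ℝ) ≤ N := by exact_mod_cast hN
  set Q : ℝ := (N : ℝ) ^ (1 / 1000 : ℝ)
  have hQ : 1 ≤ Q := Real.one_le_rpow hN1 (by norm_num)
  have hQN : Q ^ 1000 = N := by
    rw [← Real.rpow_natCast, ← Real.rpow_mul (by positivity)]; norm_num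
  have hQ3 : (N : ℝ) ^ (3 - 1 / 1000 : ℝ) = Q ^ 2999 := by
    rw [← Real.rpow_natCast, ← Real.rpow_mul (by positivity)]; norm_num
  clear_value Q
  have hy : (0 : ℝ) < 1 / Q ^ 1000 := by positivity
  have hc : ∀ a : ℚ, Continuous fun x : ℝ => C * (Q ^ 1998 * (1 / (a.den : ℝ) ^ 3)) *
      (1 / ((x + -(a : ℝ)) ^ 2 + (1 / Q ^ 1000) ^ 2)) := fun a =>
    continuous_const.mul (continuous_const.div (by fun_prop) fun x => by positivity)
  have h3 := bes hN (fun v => φ v * (e (η * (Q2 v : ℤ)) - sm ν η (nsq v)))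
    (fun v => by
      rw [norm_mul]
      have b1 := (norm_sub_le (e (η * (Q2 v : ℤ))) (sm ν η (nsq v)))
      have b2 := norm_sm hν η (nsq v)
      rw [norm_e] at b1
      calc _ ≤ 1 * 2 := mul_le_mul (hφ v) (by linarith) (norm_nonneg _) zero_le_one
        _ = 2 := one_mul _)
    (G := fun x => C * Q ^ 2500 + ∑ a ∈ fr (Nat.sqrt N), C * (Q ^ 1998 * (1 / (a.den : ℝ) ^ 3)) *
      (1 / ((x + -(a : ℝ)) ^ 2 + (1 / Q ^ 1000) ^ 2)))
    (continuous_const.add (continuous_finsetSum _ fun a _ => hc a))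
    (fun x hx => by
      obtain ⟨a, ha, ha1, ha2⟩ := approx hQ hQN hx
      have := h1 d φ Q x η a hQ hd hdQ hper hφ (hQN ▸ hη) ha1 ha2
      rw [← hQN]
      refine this.trans ?_
      rw [mul_add]
      refine add_le_add le_rfl (le_trans (le_of_eq ?_) (single_le_sum (f := fun a : ℚ =>
        C * (Q ^ 1998 * (1 / (a.den : ℝ) ^ 3)) *
          (1 / ((x + -(a : ℝ)) ^ 2 + (1 / Q ^ 1000) ^ 2))) (fun a _ => by positivity) ha))
      rw [← sub_eq_add_neg]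
      ring)
  have e0 : ∑ n ∈ Icc (0 : ℤ) N, ‖∑ v ∈ sphere n, φ v * (e (η * (Q2 v : ℤ)) - sm ν η n)‖ ^ 2 =
      ∑ n ∈ Icc (0 : ℤ) N,
        ‖∑ v ∈ sphere n, φ v * (e (η * (Q2 v : ℤ)) - sm ν η (nsq v))‖ ^ 2 :=
    sum_congr rfl fun n _ => by
      rw [sum_congr rfl fun v hv => by rw [← mem_sphere.1 hv]]
  rw [e0]
  refine h3.trans ?_
  rw [intervalIntegral.integral_add (by simp)
    ((continuous_finsetSum _ fun a _ => hc a).intervalIntegrable _ _),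
    intervalIntegral.integral_finsetSum fun a _ => (hc a).intervalIntegrable _ _]
  have h4 : ∀ a ∈ fr (Nat.sqrt N), ∫ x in (0 : ℝ)..1, C * (Q ^ 1998 * (1 / (a.den : ℝ) ^ 3)) *
      (1 / ((x + -(a : ℝ)) ^ 2 + (1 / Q ^ 1000) ^ 2)) ≤
      (4 * C * Q ^ 2998) * (1 / (a.den : ℝ) ^ 3) := by
    intro a _
    rw [intervalIntegral.integral_const_mul]
    refine (mul_le_mul_of_nonneg_left (lorentz _ hy) (by positivity)).trans (le_of_eq ?_)
    rw [div_div_eq_mul_div, div_one]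
    ring
  have h6 := sum_le_sum h4
  rw [← mul_sum] at h6
  replace h6 := h6.trans (mul_le_mul_of_nonneg_left (sum_fr _) (by positivity))
  simp only [intervalIntegral.integral_const, sub_zero, one_smul]
  rw [hQ3, mul_assoc]
  refine mul_le_mul_of_nonneg_left ?_ (by positivity)
  have p1 : Q ^ 2500 ≤ Q ^ 2999 := pow_le_pow_right₀ hQ (by norm_num)
  have p2 : Q ^ 2998 ≤ Q ^ 2999 := pow_le_pow_right₀ hQ (by norm_num)
  have p3 := mul_le_mul_of_nonneg_left p1 hC.le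
  have p4 := mul_le_mul_of_nonneg_left p2 hC.le
  generalize Q ^ 2500 = A at *
  generalize Q ^ 2998 = B at *
  generalize Q ^ 2999 = D at *
  linarith

end Pool.Agent.P.MP_0ad054_nt.BG
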