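import Pool.Agent.P.MP_0ad054_nt.BG.Defs

/-! Angular equidistribution of the primitive points of a sublattice. -/

namespace Pool.Agent.P.MP_0ad054_nt.BG

open Finset MeasureTheory Complex Pool.Agent.Lib.H9 Pool.Agent.P.MP_0ad054_nt.Sun
  Pool.Agent.P.MP_0ad054_nt.Sun.SphereP

namespace AngPP

/-- the indicator of the sublattice and of the multiples of `d` -/
noncomputable def ph (D d : ℕ) (δ : ℤ × ℤ) (v : Fin 4 → ℤ) : ℂ :=
  if (D : ℤ) ∣ δ.1 * v 2 - δ.2 * v 1 ∧ d ∣ cont v then 1 else 0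

theorem ph_norm (D d : ℕ) (δ : ℤ × ℤ) (v : Fin 4 → ℤ) : ‖ph D d δ v‖ ≤ 1 := by
  unfold ph; split_ifs <;> simp

theorem ph_per (D d : ℕ) (δ : ℤ × ℤ) : Per (D * d) (ph D d δ) := by
  intro v w h
  have hD : ∀ j, (D : ℤ) ∣ v j - w j := fun j =>
    (Dvd.intro (d : ℤ) (by push_cast; ring)).trans (h j)
  have hd : ∀ j, (d : ℤ) ∣ v j - w j := fun j =>
    (Dvd.intro_left (D : ℤ) (by push_cast; ring)).trans (h j)
  have h1 : (D : ℤ) ∣ (δ.1 * v 2 - δ.2 * v 1) - (δ.1 * w 2 - δ.2 * w 1) := by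
    have : (δ.1 * v 2 - δ.2 * v 1) - (δ.1 * w 2 - δ.2 * w 1) =
        δ.1 * (v 2 - w 2) - δ.2 * (v 1 - w 1) := by ring
    rw [this]
    exact dvd_sub ((hD 2).mul_left _) ((hD 1).mul_left _)
  have h2 : ((D : ℤ) ∣ δ.1 * v 2 - δ.2 * v 1) ↔ ((D : ℤ) ∣ δ.1 * w 2 - δ.2 * w 1) :=
    dvd_iff_dvd_of_dvd_sub h1
  have h3 : d ∣ cont v ↔ d ∣ cont w := by
    rw [dvd_cont, dvd_cont]
    exact forall_congr' fun j => dvd_iff_dvd_of_dvd_sub (hd j)
  unfold ph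
  exact if_congr (and_congr h2 h3) rfl rfl

theorem mob (D y n : ℕ) (δ : ℤ × ℤ) (hn : ∀ d : ℕ, y < d → ¬ d ^ 2 ∣ n)
    (g : (Fin 4 → ℤ) → ℂ) :
    ∑ v ∈ pl D δ n, g v = ∑ d ∈ Icc 1 y, (ArithmeticFunction.moebius d : ℂ) *
      ∑ v ∈ sphere n, ph D d δ v * g v := by
  unfold pl psphere
  rw [filter_filter]
  simp_rw [sum_filter, mul_sum]
  rw [sum_comm]
  refine sum_congr rfl fun v hv => ?_
  have hv' := mem_sphere.1 hv
  have h1 : ((cont v : ℤ)) ^ 2 ∣ (n : ℤ) := hv' ▸ sq_dvd_nsq (dvd_cont.1 dvd_rfl)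
  have h1' : cont v ^ 2 ∣ n := by exact_mod_cast h1
  have h2 : cont v ≠ 0 := by
    intro h0
    rw [h0] at h1'
    have h5 : n = 0 := by simpa using h1'
    exact hn (y + 1) (Nat.lt_succ_self y) (h5 ▸ dvd_zero _)
  have h3 : cont v ≤ y := by
    by_contra h0
    exact hn _ (not_le.1 h0) h1'
  have h4 := congrArg (fun f => f (cont v)) (ArithmeticFunction.coe_moebius_mul_coe_zeta (R := ℂ))
  simp only [ArithmeticFunction.coe_mul_zeta_apply, ArithmeticFunction.one_apply,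
    ArithmeticFunction.intCoe_apply] at h4
  have h5 : (cont v).divisors = (Icc 1 y).filter (fun k => k ∣ cont v) := by
    ext k
    simp only [Nat.mem_divisors, mem_filter, mem_Icc]
    constructor
    · rintro ⟨hk, _⟩
      have := Nat.le_of_dvd (Nat.pos_of_ne_zero h2) hk
      exact ⟨⟨Nat.pos_of_dvd_of_pos hk (Nat.pos_of_ne_zero h2), by omega⟩, hk⟩
    · exact fun hk => ⟨hk.2, h2⟩
  rw [h5, sum_filter] at h4
  by_cases hL : (D : ℤ) ∣ δ.1 * v 2 - δ.2 * v 1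
  · calc (if cont v = 1 ∧ (D : ℤ) ∣ δ.1 * v 2 - δ.2 * v 1 then g v else 0) =
          (if cont v = 1 then 1 else 0) * g v := by simp [hL]
      _ = _ := by
        rw [← h4, sum_mul]
        refine sum_congr rfl fun k _ => ?_
        unfold ph
        by_cases hk : k ∣ cont v <;> simp [hL, hk]
  · rw [if_neg (fun h => hL h.2)]
    refine (sum_eq_zero fun k _ => ?_).symm
    unfold ph
    rw [if_neg (fun h => hL h.1)]
    simp

theorem cs (N : ℕ) (hN : 1 ≤ N) (E : Finset ℕ) (hE : ∀ n ∈ E, n ≤ N) (T : ℤ → ℂ) (C : ℝ)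
    (hC : 0 < C) (h : ∑ n ∈ Icc (0 : ℤ) N, ‖T n‖ ^ 2 ≤ C * (N : ℝ) ^ (3 - 1 / 1000 : ℝ)) :
    ‖∑ n ∈ E, T n‖ ≤ Real.sqrt (2 * C) * (N : ℝ) ^ (2 - 1 / 2000 : ℝ) := by
  have hN0 : (0 : ℝ) < N := by exact_mod_cast hN
  have hN1 : (1 : ℝ) ≤ N := by exact_mod_cast hN
  have h1 : ∑ n ∈ E, ‖T n‖ ^ 2 ≤ ∑ n ∈ Icc (0 : ℤ) N, ‖T n‖ ^ 2 := by
    rw [← sum_image (s := E) (g := fun n : ℕ => (n : ℤ)) (f := fun n => ‖T n‖ ^ 2)
      (fun a _ b _ hab => Nat.cast_injective hab)]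
    refine sum_le_sum_of_subset_of_nonneg ?_ (fun _ _ _ => by positivity)
    intro m hm
    obtain ⟨n, hn, rfl⟩ := mem_image.1 hm
    exact mem_Icc.2 ⟨by positivity, by exact_mod_cast hE n hn⟩
  have h2 : (E.card : ℝ) ≤ 2 * N := by
    have h3 : E.card ≤ (range (N + 1)).card :=
      card_le_card fun n hn => mem_range.2 (Nat.lt_succ_of_le (hE n hn))
    rw [card_range] at h3
    have h4 : (E.card : ℝ) ≤ (N : ℝ) + 1 := by exact_mod_cast h3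
    linarith
  have h3 : (∑ n ∈ E, ‖T n‖) ^ 2 ≤ E.card * ∑ n ∈ E, ‖T n‖ ^ 2 := sq_sum_le_card_mul_sum_sq
  have h4 : (Real.sqrt (2 * C) * (N : ℝ) ^ (2 - 1 / 2000 : ℝ)) ^ 2 =
      2 * N * (C * (N : ℝ) ^ (3 - 1 / 1000 : ℝ)) := by
    rw [mul_pow, Real.sq_sqrt (by positivity), ← Real.rpow_natCast, ← Real.rpow_mul hN0.le,
      show ((2 - 1 / 2000 : ℝ) * ((2 : ℕ) : ℝ)) = 1 + (3 - 1 / 1000) by norm_num,
      Real.rpow_add hN0, Real.rpow_one]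
    ring
  refine (norm_sum_le _ _).trans (le_of_pow_le_pow_left₀ (n := 2) (by norm_num) (by positivity) ?_)
  rw [h4]
  calc _ ≤ E.card * ∑ n ∈ E, ‖T n‖ ^ 2 := h3
    _ ≤ 2 * N * (C * (N : ℝ) ^ (3 - 1 / 1000 : ℝ)) :=
      mul_le_mul h2 (h1.trans h) (sum_nonneg fun _ _ => by positivity) (by positivity)

end AngPP

open AngPP in
theorem pAngP (h : S_Ang) : S_AngP := by
  intro ν hν
  obtain ⟨C, hC, h⟩ := h ν hν
  refine ⟨Real.sqrt (2 * C), by positivity, fun N D y δ E η hN hD hy hη hE => ?_⟩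
  rw [sum_congr rfl fun n hn => mob D y n δ (hE n hn).2 (fun v => e (η * (Q2 v : ℤ)) - sm ν η n),
    sum_comm]
  refine (norm_sum_le _ _).trans ?_
  have h1 : ∀ d ∈ Icc 1 y, ‖∑ n ∈ E, (ArithmeticFunction.moebius d : ℂ) *
      ∑ v ∈ sphere (n : ℤ), ph D d δ v * (e (η * (Q2 v : ℤ)) - sm ν η n)‖ ≤
      Real.sqrt (2 * C) * (N : ℝ) ^ (2 - 1 / 2000 : ℝ) := by
    intro d hd
    obtain ⟨hd1, hd2⟩ := mem_Icc.1 hd
    rw [← mul_sum, norm_mul]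
    have hμ : ‖(ArithmeticFunction.moebius d : ℂ)‖ ≤ 1 := by
      rw [Complex.norm_intCast]
      exact_mod_cast ArithmeticFunction.abs_moebius_le_one
    refine (mul_le_of_le_one_left (norm_nonneg _) hμ).trans ?_
    have h2 : ((D * d : ℕ) : ℝ) ≤ (N : ℝ) ^ (1 / 1000 : ℝ) :=
      le_trans (by exact_mod_cast Nat.mul_le_mul_left D hd2) hy
    exact cs N hN E (fun n hn => (hE n hn).1)
      (fun n => ∑ v ∈ sphere n, ph D d δ v * (e (η * (Q2 v : ℤ)) - sm ν η n)) C hC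
      (h N (D * d) (ph D d δ) η hN (Nat.mul_ne_zero hD (by omega)) h2 (ph_per D d δ)
        (ph_norm D d δ) hη)
  refine (sum_le_card_nsmul _ _ _ h1).trans (le_of_eq ?_)
  rw [Nat.card_Icc, nsmul_eq_mul]
  push_cast [Nat.add_sub_cancel]
  ring

end Pool.Agent.P.MP_0ad054_nt.BG
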