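import Pool.Agent.P.MP_0ad054_nt.BG.Defs
import Pool.Agent.P.MP_746f10_nt.Cel.Norm

/-! Many prime pairs in a given class. -/

namespace Pool.Agent.P.MP_0ad054_nt.BG

open Finset MeasureTheory Complex Pool.Agent.Lib.H9 Pool.Agent.P.MP_0ad054_nt.Sun
  Pool.Agent.P.MP_0ad054_nt.Sun.SphereP

namespace DenseP

theorem LL_big (T : ℝ) : ∃ N0 : ℕ, ∀ N : ℕ, N0 ≤ N → T ≤ LL N := by
  obtain ⟨N0, h⟩ := Filter.eventually_atTop.1
    ((Real.tendsto_log_atTop.comp tendsto_natCast_atTop_atTop).eventually_ge_atTop T)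
  exact ⟨N0, fun N hN => (h N hN).trans (by simp [LL])⟩

theorem adm {k W c : ℕ} {S : Finset ℕ} {b : ℤ} (f : Fin k → ℕ) (hf : ∀ l, f l ∈ S) (hS : AdmS S)
    (hc : ∀ l, (W : ℤ) ∣ (c + f l : ℕ) - b) (hb : IsCoprime b W) :
    Pool.Agent.P.MP_746f10_nt.Cel.Adm (fun _ : Fin k => W) (fun l => c + f l) := by
  intro p hp
  by_cases hW : p ∣ W
  · refine ⟨0, fun l h => ?_⟩
    rw [mul_zero, zero_add] at h
    have h1 : (p : ℤ) ∣ W := Int.natCast_dvd_natCast.2 hW
    have h2 : (p : ℤ) ∣ b := by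
      have := dvd_sub (Int.natCast_dvd_natCast.2 h) (h1.trans (hc l))
      rwa [sub_sub_cancel] at this
    exact (Nat.prime_iff_prime_int.1 hp).not_unit (hb.isUnit_of_dvd' h2 h1)
  · obtain ⟨t, ht⟩ := hS p hp
    haveI := Fact.mk hp
    have h0 : (W : ZMod p) ≠ 0 := fun e => hW ((ZMod.natCast_eq_zero_iff _ _).1 e)
    refine ⟨(((t : ZMod p) - c) / W).val, fun l h => ht _ (hf l) ?_⟩
    rw [← ZMod.natCast_eq_zero_iff] at h ⊢
    push_cast at h ⊢
    rw [ZMod.natCast_zmod_val, mul_div_cancel₀ _ h0] at h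
    linear_combination h

end DenseP

open DenseP in
theorem pDense (h : S_Two) : S_Dense := by
  obtain ⟨k, K0, hk, H⟩ := h
  refine ⟨k, fun W S b hW hS hA hm hb => ?_⟩
  set f := S.orderEmbOfFin hS with hf
  have hfS : ∀ l, f l ∈ S := fun l => S.orderEmbOfFin_mem hS l
  obtain ⟨c, hc⟩ : ∃ c : ℕ, ∀ l, (W : ℤ) ∣ (c + f l : ℕ) - b := by
    have hW' : (W : ℤ) ≠ 0 := by exact_mod_cast hW.ne'
    obtain ⟨c, hc⟩ := Int.eq_ofNat_of_zero_le (Int.emod_nonneg (b - f ⟨0, hk⟩) hW')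
    refine ⟨c, fun l => ?_⟩
    have h1 := (hm _ (hfS ⟨0, hk⟩) _ (hfS l)).dvd
    have h2 : (W : ℤ) ∣ c - (b - f ⟨0, hk⟩) := hc ▸ (Int.mod_modEq _ _).symm.dvd
    refine (dvd_add h1 h2).trans (dvd_of_eq ?_)
    push_cast
    ring
  obtain ⟨Δ, n0, hΔ, hN⟩ := Pool.Agent.P.MP_746f10_nt.Cel.Norm.exists_Nrm (fun _ : Fin k => W)
    (fun l => c + f l) K0 (fun _ => hW) (adm f hfS hA hc hb)
    fun x y e => f.injective (Nat.add_left_cancel (congrArg Prod.snd e))
  obtain ⟨j, N0, H⟩ := H _ _ _ hN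
  obtain ⟨D, hD⟩ : ∃ D, D = W * Δ := ⟨_, rfl⟩
  have hD0 : 0 < D := hD ▸ Nat.mul_pos hW hΔ
  obtain ⟨B, hB⟩ : ∃ B, ∀ l, W * n0 + (c + f l) ≤ B :=
    ⟨W * n0 + (c + ∑ l, f l), fun l => by
      have := single_le_sum (f := fun l => f l) (fun _ _ => Nat.zero_le _) (mem_univ l)
      omega⟩
  obtain ⟨N1, hL⟩ := LL_big (4 * D + k ^ 2 + 1)
  refine ⟨j + 2, N0 + N1 + 4 * D + 2 * B, fun N hN' => ?_⟩
  have hLN := hL N (by omega)
  have hDr : (0 : ℝ) < D := by exact_mod_cast hD0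
  have hk2 : (0 : ℝ) ≤ (k : ℝ) ^ 2 := sq_nonneg _
  have hL0 : 0 < LL N := by linarith
  have hN0 : (0 : ℝ) < N := by exact_mod_cast (show 0 < N by omega)
  obtain ⟨X, hX⟩ : ∃ X, X = N / (2 * D) := ⟨_, rfl⟩
  obtain ⟨x, hx⟩ : ∃ x, x = 2 * N / D + 1 := ⟨_, rfl⟩
  have x1 : 2 * N < D * x := hx ▸ Nat.lt_mul_div_succ _ hD0
  have x2 : D * x ≤ 2 * N + D := by
    rw [hx, mul_add, mul_one]
    exact Nat.add_le_add_right (Nat.mul_div_le _ _) _
  have X1 : N < 2 * D * (X + 1) := hX ▸ Nat.lt_mul_div_succ _ (by omega)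
  have X2 : 2 * D * X ≤ N := hX ▸ Nat.mul_div_le _ _
  have X3 : N ≤ 4 * D * X := by nlinarith
  have X4 : (N : ℝ) / LL N ≤ X := by
    rw [div_le_iff₀ hL0]
    have : (N : ℝ) ≤ 4 * D * X := by exact_mod_cast X3
    nlinarith [(Nat.cast_nonneg X : (0 : ℝ) ≤ X)]
  have X5 : X ≤ x := by
    by_contra hn
    nlinarith
  have X6 : x + X ≤ 8 * N := by nlinarith
  have G := H N (by omega) x X X4 (X4.trans (by exact_mod_cast X5)) X6
  by_contra hn
  push Not at hn
  have sub : (Ico x (x + X)).filter (fun n =>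
      1 < (univ.filter (fun l => (W * Δ * n + (W * n0 + (c + f l))).Prime)).card) ⊆
      (univ : Finset (Fin k × Fin k)).biUnion fun q => (Ico x (x + X)).filter fun n =>
        q.1 < q.2 ∧ (D * n + (W * n0 + (c + f q.1))).Prime ∧
          (D * n + (W * n0 + (c + f q.2))).Prime := by
    intro n hn
    obtain ⟨h1, h2⟩ := mem_filter.1 hn
    obtain ⟨l, hl, l', hl', e⟩ := one_lt_card.1 h2
    rw [← hD] at hl hl'
    rcases lt_or_gt_of_ne e with e | e
    · exact mem_biUnion.2 ⟨(l, l'), mem_univ _, mem_filter.2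
        ⟨h1, e, (mem_filter.1 hl).2, (mem_filter.1 hl').2⟩⟩
    · exact mem_biUnion.2 ⟨(l', l), mem_univ _, mem_filter.2
        ⟨h1, e, (mem_filter.1 hl').2, (mem_filter.1 hl).2⟩⟩
  have one : ∀ q : Fin k × Fin k, (((Ico x (x + X)).filter fun n =>
      q.1 < q.2 ∧ (D * n + (W * n0 + (c + f q.1))).Prime ∧
        (D * n + (W * n0 + (c + f q.2))).Prime).card : ℝ) ≤ N / LL N ^ (j + 2) := by
    intro q
    by_cases hq : q.1 < q.2
    · have hlt : f q.1 < f q.2 := f.strictMono hq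
      refine le_trans ?_ (hn _ (hfS q.1) _ (hfS q.2) hlt).le
      refine Nat.cast_le.2 (card_le_card_of_injOn (fun n => D * n + (W * n0 + (c + f q.2)))
        (fun n hn => ?_) fun n _ n' _ e => Nat.eq_of_mul_eq_mul_left hD0 (Nat.add_right_cancel e))
      obtain ⟨h1, -, h2, h3⟩ := mem_filter.1 (mem_coe.1 hn)
      obtain ⟨a1, a2⟩ := mem_Ico.1 h1
      have a3 : D * x ≤ D * n := Nat.mul_le_mul_left _ a1
      have a4 : D * n ≤ D * x + D * X := by rw [← mul_add]; exact Nat.mul_le_mul_left _ a2.le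
      have a5 := hB q.2
      rw [mul_assoc] at X2
      beta_reduce
      refine mem_coe.2 (mem_filter.2 ⟨mem_Icc.2 ⟨by omega, by omega⟩, h3, ?_, ?_⟩)
      · refine (dvd_add (dvd_mul_right (W : ℤ) (Δ * n + n0)) (hc q.2)).trans (dvd_of_eq ?_)
        rw [hD]
        push_cast
        ring
      · rwa [show D * n + (W * n0 + (c + f q.2)) - (f q.2 - f q.1) =
          D * n + (W * n0 + (c + f q.1)) by omega]
    · simp only [hq, false_and, filter_false, card_empty, Nat.cast_zero]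
      positivity
  have tot := (Nat.cast_le (α := ℝ)).2 ((card_le_card sub).trans card_biUnion_le)
  rw [Nat.cast_sum] at tot
  have fin := G.trans (tot.trans (sum_le_sum fun q _ => one q))
  rw [sum_const, card_univ, Fintype.card_prod, Fintype.card_fin, nsmul_eq_mul] at fin
  have low : N / LL N / LL N ^ j ≤ X / LL N ^ j := by gcongr
  have last := low.trans fin
  rw [div_div, ← mul_div_assoc, div_le_div_iff₀ (by positivity) (by positivity)] at last
  push_cast at last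
  have hp : 0 < N * (LL N * LL N ^ j) := by positivity
  have e : (N : ℝ) * LL N ^ (j + 2) = N * (LL N * LL N ^ j) * LL N := by ring
  nlinarith

end Pool.Agent.P.MP_0ad054_nt.BG
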