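import Pool.Agent.P.MP_0ad054_nt.BG.Defs

/-! The Fejer kernel. -/

namespace Pool.Agent.P.MP_0ad054_nt.BG

open Finset MeasureTheory Complex Pool.Agent.Lib.H9 Pool.Agent.P.MP_0ad054_nt.Sun
  Pool.Agent.P.MP_0ad054_nt.Sun.SphereP

namespace FejP

theorem expand (M R : ℕ) (s : ℝ) : (fej M R s : ℂ) =
    1 / (M * R) * ∑ r ∈ range R, ∑ r' ∈ range R, e (((r : ℝ) - r') / M * s) := by
  have h : ((‖∑ r ∈ range R, e (r * s / M)‖ ^ 2 : ℝ) : ℂ) =
      ∑ r ∈ range R, ∑ r' ∈ range R, e (((r : ℝ) - r') / M * s) := by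
    rw [← Complex.normSq_eq_norm_sq, ← Complex.mul_conj, map_sum, sum_mul_sum]
    refine sum_congr rfl fun r _ => sum_congr rfl fun r' _ => ?_
    rw [← e_sub]; congr 1; ring
  rw [fej, Complex.ofReal_div, h]
  push_cast
  ring

theorem orth {M : ℕ} {k : ℤ} (hk : k ≠ 0) (hM : |k| < M) (a : ℤ) :
    ∑ m ∈ Ico a (a + M), e ((k : ℝ) / M * m) = 0 := by
  have hM0 : (M : ℝ) ≠ 0 := by
    have : (0 : ℤ) < M := (abs_nonneg k).trans_lt hM
    exact_mod_cast this.ne'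
  have e1 : ∑ n ∈ Ico a (a + M), e ((k : ℝ) / M * n) =
      e ((k : ℝ) / M * a) * ∑ i ∈ range M, e ((k : ℝ) / M * i) := by
    rw [Int.Ico_eq_finset_map, sum_map, mul_sum, show (a + M - a).toNat = M by simp]
    refine sum_congr rfl fun i _ => ?_
    rw [← e_add]; congr 1; simp; ring
  have e2 := geom_range ((k : ℝ) / M) M
  rw [div_mul_cancel₀ _ hM0, e_int, sub_self] at e2
  have e3 : e ((k : ℝ) / M) - 1 ≠ 0 := fun h => by
    have h1 := four_dn_le ((k : ℝ) / M)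
    rw [h, norm_zero] at h1
    have h2 : (k : ℝ) / M - round ((k : ℝ) / M) = 0 :=
      abs_eq_zero.1 (le_antisymm (by unfold dn at h1; linarith) (abs_nonneg _))
    have h3 : (k : ℝ) = M * round ((k : ℝ) / M) := by
      rw [← sub_eq_zero.1 h2]; field_simp
    exact hk (Int.eq_zero_of_abs_lt_dvd ⟨round ((k : ℝ) / M), by exact_mod_cast h3⟩ hM)
  rw [e1, (mul_eq_zero.1 e2).resolve_right e3, mul_zero]

theorem total {M R : ℕ} (hR : 1 ≤ R) (hM : R ≤ M) (x : ℝ) (a : ℤ) :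
    ∑ m ∈ Ico a (a + M), fej M R (x - m) = 1 := by
  have hR0 : (R : ℂ) ≠ 0 := by exact_mod_cast (by omega : R ≠ 0)
  have hM0 : (M : ℂ) ≠ 0 := by exact_mod_cast (by omega : M ≠ 0)
  have key : ∀ r ∈ range R, ∀ r' ∈ range R,
      ∑ m ∈ Ico a (a + M), e (((r : ℝ) - r') / M * (x - m)) = if r = r' then (M : ℂ) else 0 := by
    intro r hr r' hr'
    rw [mem_range] at hr hr'
    split_ifs with h
    · simp [h, e_zero]
    · have h1 := orth (M := M) (k := (r' : ℤ) - r) (by omega) (by rw [abs_lt]; omega) a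
      have h2 : ∀ m : ℤ, e (((r : ℝ) - r') / M * (x - m)) =
          e (((r : ℝ) - r') / M * x) * e ((((r' : ℤ) - r : ℤ) : ℝ) / M * m) := fun m => by
        rw [← e_add]; congr 1; push_cast; ring
      simp only [h2, ← mul_sum, h1, mul_zero]
  apply Complex.ofReal_injective
  rw [Complex.ofReal_sum]
  simp only [expand, ← mul_sum]
  rw [sum_comm, sum_congr rfl fun r hr => sum_comm.trans (sum_congr rfl (key r hr)),
    sum_congr rfl fun r hr => (sum_ite_eq _ _ _).trans (if_pos hr)]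
  simp only [sum_const, card_range, nsmul_eq_mul, Complex.ofReal_one]
  field_simp

theorem low {M R : ℕ} (hR : 1 ≤ R) (hM : R ≤ M) (s : ℝ) (hs : |s| ≤ M / (16 * R)) :
    R / (4 * M) ≤ fej M R s := by
  have hR0 : (0 : ℝ) < R := by exact_mod_cast hR
  have hM0 : (0 : ℝ) < M := by exact_mod_cast hR.trans hM
  have h1 : ∀ r ∈ range R, ‖e (r * s / M) - 1‖ ≤ 1 / 2 := fun r hr => by
    have hr : (r : ℝ) ≤ R := by exact_mod_cast (mem_range.1 hr).le
    have h2 : |r * s / M| ≤ 1 / 16 := by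
      rw [abs_div, abs_mul, Nat.abs_cast, Nat.abs_cast, div_le_iff₀ hM0]
      rw [le_div_iff₀ (by positivity)] at hs
      nlinarith [abs_nonneg s]
    refine (norm_e_sub_one_le _).trans ?_
    nlinarith [Real.pi_lt_four, Real.pi_pos, abs_nonneg (r * s / M)]
  have h2 : ‖∑ r ∈ range R, (e (r * s / M) - 1)‖ ≤ R / 2 := by
    refine (norm_sum_le_of_le _ h1).trans_eq ?_
    simp only [sum_const, card_range, nsmul_eq_mul]
    ring
  rw [sum_sub_distrib, sum_const, card_range, nsmul_eq_mul, mul_one, norm_sub_rev] at h2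
  have h3 := norm_sub_norm_le (R : ℂ) (∑ r ∈ range R, e (r * s / M))
  rw [Complex.norm_natCast] at h3
  have h4 : (R / 2 : ℝ) ^ 2 ≤ ‖∑ r ∈ range R, e (r * s / M)‖ ^ 2 := by
    gcongr; linarith
  rw [fej, le_div_iff₀ (by positivity)]
  refine le_trans (le_of_eq ?_) h4
  field_simp
  norm_num

theorem point {M R : ℕ} (hR : 1 ≤ R) (hM : R ≤ M) {s : ℝ} (h0 : 0 < |s|) (hs : 2 * |s| ≤ M) :
    fej M R s ≤ M / (4 * R) * (s ^ 2)⁻¹ := by
  have hR0 : (0 : ℝ) < R := by exact_mod_cast hR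
  have hM0 : (0 : ℝ) < M := by exact_mod_cast hR.trans hM
  have ha : |s / M| = |s| / M := by rw [abs_div, Nat.abs_cast]
  have h1 : |s| / M ≤ dn (s / M) := by
    have h2 : |s| / M ≤ 1 / 2 := by rw [div_le_iff₀ hM0]; linarith
    unfold dn
    by_cases hk : round (s / M) = 0
    · rw [hk, Int.cast_zero, sub_zero, ha]
    · have h3 : (1 : ℝ) ≤ |(round (s / M) : ℝ)| := by exact_mod_cast Int.one_le_abs hk
      have h4 := abs_sub_abs_le_abs_sub (round (s / M) : ℝ) (s / M)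
      rw [abs_sub_comm] at h4
      linarith
  have h2 : ‖∑ r ∈ range R, e (r * s / M)‖ * (4 * (|s| / M)) ≤ 2 := by
    have h3 := congrArg norm (geom_range (s / M) R)
    rw [norm_mul] at h3
    have h4 : ‖e (s / M * R) - 1‖ ≤ 2 := by
      refine (norm_sub_le _ _).trans ?_
      rw [norm_e, norm_one]; norm_num
    rw [sum_congr rfl fun (r : ℕ) _ => congrArg e (show (r : ℝ) * s / M = s / M * r by ring)]
    refine le_trans ?_ (h3.trans_le h4)
    gcongr
    linarith [four_dn_le (s / M)]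
  have h3 : ‖∑ r ∈ range R, e (r * s / M)‖ ≤ M / (2 * |s|) := by
    rw [le_div_iff₀ (by positivity)]
    have := mul_le_mul_of_nonneg_right h2 hM0.le
    rw [mul_assoc, mul_assoc, div_mul_cancel₀ _ hM0.ne'] at this
    linarith
  rw [fej, div_le_iff₀ (by positivity)]
  refine (pow_le_pow_left₀ (norm_nonneg _) h3 2).trans_eq ?_
  rw [← sq_abs s]
  field_simp
  norm_num

theorem inv_sq (S : Finset ℤ) {t : ℝ} (ht : 1 ≤ t) {L : ℕ}
    (hS : ∀ s ∈ S, t ≤ |(s : ℝ)| ∧ |(s : ℝ)| ≤ L) : ∑ s ∈ S, ((s : ℝ) ^ 2)⁻¹ ≤ 4 / t := by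
  have hn : 1 ≤ ⌈t⌉₊ := Nat.one_le_ceil_iff.2 (by linarith)
  set J := Ioo (⌈t⌉₊ - 1) (L + 1) with hJ
  have h1 : ∑ i ∈ J, ((i : ℝ) ^ 2)⁻¹ ≤ 2 / t := by
    refine (sum_Ioo_inv_sq_le _ _).trans ?_
    rw [Nat.cast_sub hn, Nat.cast_one, sub_add_cancel]
    gcongr
    exact Nat.le_ceil t
  have h2 : S ⊆ J.image (fun k : ℕ => (k : ℤ)) ∪ J.image fun k : ℕ => -(k : ℤ) := fun s hs => by
    have e1 : |(s : ℝ)| = (s.natAbs : ℝ) := by simp
    obtain ⟨h3, h4⟩ := hS s hs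
    rw [e1] at h3 h4
    have h5 : ⌈t⌉₊ ≤ s.natAbs := Nat.ceil_le.2 h3
    have h6 : s.natAbs ≤ L := by exact_mod_cast h4
    have h7 : s.natAbs ∈ J := mem_Ioo.2 ⟨by omega, by omega⟩
    rcases Int.natAbs_eq s with h | h
    · exact mem_union_left _ (mem_image.2 ⟨_, h7, h.symm⟩)
    · exact mem_union_right _ (mem_image.2 ⟨_, h7, h.symm⟩)
  refine (sum_le_sum_of_subset_of_nonneg h2 fun _ _ _ => by positivity).trans ?_
  have h3 := sum_union_inter (s₁ := J.image fun k : ℕ => (k : ℤ))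
    (s₂ := J.image fun k : ℕ => -(k : ℤ)) (f := fun s : ℤ => ((s : ℝ) ^ 2)⁻¹)
  have h4 : 0 ≤ ∑ s ∈ J.image (fun k : ℕ => (k : ℤ)) ∩ J.image fun k : ℕ => -(k : ℤ),
      ((s : ℝ) ^ 2)⁻¹ := sum_nonneg fun _ _ => by positivity
  rw [sum_image fun a _ b _ h => by omega, sum_image fun a _ b _ h => by omega] at h3
  simp only [Int.cast_neg, Int.cast_natCast, neg_sq] at h3
  have : 4 / t = 2 / t + 2 / t := by ring
  linarith

end FejP

theorem pFej : S_Fej := by
  intro M R hR hM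
  refine ⟨FejP.expand M R, FejP.total hR hM, FejP.low hR hM, fun S t ht hS => ?_⟩
  have hR0 : (0 : ℝ) < R := by exact_mod_cast hR
  refine (sum_le_sum fun s hs => FejP.point hR hM (by linarith [(hS s hs).1]) (hS s hs).2).trans ?_
  rw [← mul_sum]
  refine (mul_le_mul_of_nonneg_left (FejP.inv_sq S ht (L := M) fun s hs =>
    ⟨(hS s hs).1, by linarith [(hS s hs).2, abs_nonneg (s : ℝ)]⟩) (by positivity)).trans_eq ?_
  field_simp

end Pool.Agent.P.MP_0ad054_nt.BG
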