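import Pool.Agent.P.MP_0ad054_nt.BG.Defs

/-! The final assembly: one pair of shifts is good for every class and every dyadic block. -/

namespace Pool.Agent.P.MP_0ad054_nt.BG

open Finset MeasureTheory Complex Pool.Agent.Lib.H9 Pool.Agent.P.MP_0ad054_nt.Sun
  Pool.Agent.P.MP_0ad054_nt.Sun.SphereP

namespace FinP

theorem one_le_LL (N : ℕ) : 1 ≤ LL N := by
  have := Real.log_natCast_nonneg N
  unfold LL
  linarith

theorem block (N n : ℕ) (hn : n ≤ N) :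
    ∀ r : ℕ, N / 2 ^ (r + 1) < n → ∃ i, i < r + 1 ∧ n ≤ N / 2 ^ i ∧ N / 2 ^ i ≤ 2 * n := by
  intro r
  induction r with
  | zero =>
    intro h
    refine ⟨0, by omega, by simpa using hn, ?_⟩
    simp only [zero_add, pow_one, pow_zero, Nat.div_one] at h ⊢
    omega
  | succ r ih =>
    intro h
    by_cases h' : N / 2 ^ (r + 1) < n
    · obtain ⟨i, hi, h1⟩ := ih h'
      exact ⟨i, by omega, h1⟩
    · refine ⟨r + 1, by omega, by omega, ?_⟩
      rw [pow_succ 2 (r + 1), ← Nat.div_div_eq_div_mul] at h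
      omega

theorem log_le (N i r : ℕ) (hi : i < r + 1) (h1 : 1 ≤ N / 2 ^ i) :
    Real.log N ≤ (r + 1) * LL (N / 2 ^ i) := by
  set M := N / 2 ^ i with hM
  have hp : 0 < 2 ^ i := by positivity
  have h2 : N < 2 ^ i * (M + 1) := Nat.lt_mul_div_succ N hp
  have h3 : N ≤ 2 ^ (i + 1) * M := by
    rw [pow_succ]
    nlinarith
  have hN : 0 < N := by
    rcases Nat.eq_zero_or_pos N with h | h
    · rw [h] at hM
      simp at hM
      omega
    · exact h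
  have hM0 : (0 : ℝ) < M := by exact_mod_cast h1
  have h4 : Real.log N ≤ Real.log ((2 : ℝ) ^ (i + 1) * M) :=
    Real.log_le_log (by exact_mod_cast hN) (by exact_mod_cast h3)
  rw [Real.log_mul (by positivity) hM0.ne', Real.log_pow] at h4
  have h5 : Real.log 2 ≤ 1 := by
    have := Real.log_le_sub_one_of_pos (show (0 : ℝ) < 2 by norm_num)
    linarith
  have h6 := Real.log_natCast_nonneg M
  have h7 : (i : ℝ) ≤ r := by exact_mod_cast (show i ≤ r by omega)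
  have h8 : (0 : ℝ) ≤ i := Nat.cast_nonneg i
  unfold LL
  push_cast at h4
  nlinarith

theorem term_le (N i r A : ℕ) (C : ℝ) (hC : 0 < C) (hN : 2 ≤ N) (hi : i < r + 1)
    (h1 : 1 ≤ N / 2 ^ i) :
    C * ((N / 2 ^ i : ℕ) : ℝ) / LL (N / 2 ^ i) ^ A ≤ C * (r + 1) ^ A * N / Real.log N ^ A := by
  have hl : 0 < Real.log N := Real.log_pos (by exact_mod_cast hN)
  have hL := one_le_LL (N / 2 ^ i)
  have h2 := log_le N i r hi h1
  have h3 : Real.log N ^ A ≤ (r + 1) ^ A * LL (N / 2 ^ i) ^ A := by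
    rw [← mul_pow]
    exact pow_le_pow_left₀ hl.le h2 A
  have h4 : ((N / 2 ^ i : ℕ) : ℝ) ≤ N := by exact_mod_cast Nat.div_le_self _ _
  rw [div_le_div_iff₀ (by positivity) (by positivity)]
  calc C * ((N / 2 ^ i : ℕ) : ℝ) * Real.log N ^ A
      ≤ C * N * ((r + 1) ^ A * LL (N / 2 ^ i) ^ A) := by gcongr
    _ = _ := by ring

/-- uniform constants for all subsets and all classes -/
theorem unif (W K : ℕ) (cl : ℤ → ℤ) (S0 : Finset ℕ)
    (h : ∀ S ⊆ S0, S.card = K → ∀ j : Fin W, ∃ k0 N0 : ℕ, ∀ N : ℕ, N0 ≤ N →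
      ∃ h ∈ S, ∃ h' ∈ S, h < h' ∧
        N / LL N ^ k0 ≤ (pairs W N (cl (2 * (j : ℕ) + 1)) (h' - h)).card) :
    ∃ m : ℕ, ∀ S ⊆ S0, S.card = K → ∀ j : Fin W, ∀ N : ℕ, m ≤ N →
      ∃ h ∈ S, ∃ h' ∈ S, h < h' ∧
        N / LL N ^ m ≤ (pairs W N (cl (2 * (j : ℕ) + 1)) (h' - h)).card := by
  have key : ∀ᶠ m : ℕ in Filter.atTop, ∀ S ∈ S0.powerset, ∀ j : Fin W, S.card = K →
      ∀ N : ℕ, m ≤ N → ∃ h ∈ S, ∃ h' ∈ S, h < h' ∧
        N / LL N ^ m ≤ (pairs W N (cl (2 * (j : ℕ) + 1)) (h' - h)).card := by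
    rw [Filter.eventually_all_finset]
    intro S hS
    rw [Filter.eventually_all]
    intro j
    by_cases hK : S.card = K
    · obtain ⟨k0, N0, hk⟩ := h S (mem_powerset.1 hS) hK j
      filter_upwards [Filter.eventually_ge_atTop k0, Filter.eventually_ge_atTop N0] with m h1 h2
      intro _ N hN
      obtain ⟨x, hx, y, hy, hxy, hc⟩ := hk N (h2.trans hN)
      refine ⟨x, hx, y, hy, hxy, le_trans ?_ hc⟩
      have hL := one_le_LL N
      exact div_le_div_of_nonneg_left (Nat.cast_nonneg N) (by positivity)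
        (pow_le_pow_right₀ hL h1)
    · exact Filter.Eventually.of_forall fun m h1 => absurd h1 hK
  obtain ⟨m, hm⟩ := key.exists
  exact ⟨m, fun S hS hK j => hm S (mem_powerset.2 hS) j hK⟩

/-- one pair is good for every colour -/
theorem good {κ : Type} [Nonempty κ] (K R : ℕ) (S0 : Finset ℕ) (hR : R ≤ S0.card)
    (hram : ∀ (S : Finset ℕ) (col : ℕ → ℕ → κ), R ≤ S.card →
      ∃ S' ⊆ S, S'.card = K ∧ ∃ i, ∀ x ∈ S', ∀ y ∈ S', x < y → col x y = i)
    (G : κ → ℕ → ℕ → Prop)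
    (hG : ∀ S ⊆ S0, S.card = K → ∀ c, ∃ x ∈ S, ∃ y ∈ S, x < y ∧ G c x y) :
    ∃ a ∈ S0, ∃ b ∈ S0, a < b ∧ ∀ c, G c a b := by
  by_contra hcon
  have h1 : ∀ x y : ℕ, ∃ c : κ, x ∈ S0 → y ∈ S0 → x < y → ¬ G c x y := by
    intro x y
    by_cases hxy : x ∈ S0 ∧ y ∈ S0 ∧ x < y
    · by_contra h2
      refine hcon ⟨x, hxy.1, y, hxy.2.1, hxy.2.2, fun c => ?_⟩
      by_contra h3
      exact h2 ⟨c, fun _ _ _ => h3⟩
    · exact ⟨Classical.arbitrary κ, fun a b c => absurd ⟨a, b, c⟩ hxy⟩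
  choose col hcol using h1
  obtain ⟨S, hS, hK, c, hc⟩ := hram S0 col hR
  obtain ⟨x, hx, y, hy, hxy, hg⟩ := hG S hS hK c
  have := hcol x y (hS hx) (hS hy) hxy
  rw [hc x hx y hy hxy] at this
  exact this hg

theorem small (s : Set ℕ) (N : ℕ) (hs : ∀ n ∈ s, n ≤ N ∧ Odd n) : s.ncard ≤ N := by
  have h : s ⊆ ↑(Icc 1 N) := by
    intro n hn
    obtain ⟨h1, t, h2⟩ := hs n hn
    simp only [coe_Icc, Set.mem_Icc]
    omega
  have := Set.ncard_le_ncard h (Finset.finite_toSet _)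
  rwa [Set.ncard_coe_finset, Nat.card_Icc, Nat.add_sub_cancel] at this

end FinP

open FinP in
theorem pFin (h1 : S_T) (h2 : S_Dense) (h3 : S_Ramsey) : S_Main := by
  classical
  intro ε hε
  obtain ⟨W, cl, hW, -, hcl, hT⟩ := h1
  obtain ⟨K, hD⟩ := h2
  obtain ⟨r, hr⟩ := exists_pow_lt_of_lt_one hε (show (1 / 2 : ℝ) < 1 by norm_num)
  obtain ⟨R, hR⟩ := h3 (Fin W × Fin (r + 1)) K
  refine ⟨W * R + 2, fun H hH hadm A => ?_⟩
  obtain ⟨c0, -, hc0⟩ := Finset.exists_lt_card_fiber_of_mul_lt_card_of_maps_to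
    (s := H) (t := range W) (f := fun h => h % W) (n := R)
    (fun a _ => mem_range.2 (Nat.mod_lt a hW)) (by rw [card_range]; omega)
  set S0 := H.filter (fun h => h % W = c0) with hS0
  have hsub : S0 ⊆ H := filter_subset _ _
  obtain ⟨m, hm⟩ := unif W K cl S0 (by
    intro S hS hK j
    refine hD W S _ hW hK ?_ ?_ (hcl _ ⟨(j : ℕ), rfl⟩)
    · intro p hp
      obtain ⟨t, ht⟩ := hadm p hp
      exact ⟨t, fun h hh => ht h (hsub (hS hh))⟩
    · intro h hh h' hh'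
      have e1 := (mem_filter.1 (hS hh)).2
      have e2 := (mem_filter.1 (hS hh')).2
      exact e1.trans e2.symm)
  obtain ⟨C, N0, hC, hT⟩ := hT m A
  set N1 : ℕ := (m + N0 + 1) * 2 ^ r with hN1
  refine ⟨W * (r + 1) * (C * (r + 1) ^ A) + (N1 : ℝ) ^ A, fun N hN => ?_⟩
  have hl : 0 < Real.log N := Real.log_pos (by exact_mod_cast hN)
  have hN0 : (0 : ℝ) < N := by exact_mod_cast (show 0 < N by omega)
  by_cases hbig : N1 ≤ N
  · have hblk : ∀ i : Fin (r + 1), m + N0 + 1 ≤ N / 2 ^ (i : ℕ) := by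
      intro i
      rw [Nat.le_div_iff_mul_le (by positivity)]
      refine le_trans (Nat.mul_le_mul_left _ ?_) hbig
      exact Nat.pow_le_pow_right (by norm_num) (by have := i.2; omega)
    have : Nonempty (Fin W × Fin (r + 1)) := ⟨(⟨0, hW⟩, 0)⟩
    obtain ⟨a, ha, b, hb, hab, hg⟩ := good K R S0 hc0.le hR
      (fun c x y => ((N / 2 ^ (c.2 : ℕ) : ℕ) : ℝ) / LL (N / 2 ^ (c.2 : ℕ)) ^ m ≤
        (pairs W (N / 2 ^ (c.2 : ℕ)) (cl (2 * (c.1 : ℕ) + 1)) (y - x)).card)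
      (fun S hS hK c => hm S hS hK c.1 _ (by have := hblk c.2; omega))
    refine ⟨a, hsub ha, b, hsub hb, hab, ?_⟩
    let E : Fin W × Fin (r + 1) → Finset ℕ := fun c =>
      (Icc 0 (N / 2 ^ (c.2 : ℕ))).filter (fun n => N / 2 ^ (c.2 : ℕ) ≤ 2 * n ∧
        (W : ℤ) ∣ n - (2 * (c.1 : ℕ) + 1) ∧
        ¬ Clu.RepS (pairs W (N / 2 ^ (c.2 : ℕ)) (cl (2 * (c.1 : ℕ) + 1)) (b - a)) n)
    have hE : ∀ c, ((E c).card : ℝ) ≤ C * (r + 1) ^ A * N / Real.log N ^ A := by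
      intro c
      have hc := hblk c.2
      refine le_trans (hT _ (by omega) (2 * (c.1 : ℕ) + 1) _ (E c) ⟨(c.1 : ℕ), rfl⟩ ?_ (hg c) ?_)
        (term_le N c.2 r A C hC hN c.2.2 (by omega))
      · intro t ht
        obtain ⟨t1, t2, t3, -⟩ := mem_filter.1 ht
        exact ⟨t2, (mem_Icc.1 t1).1, (mem_Icc.1 t1).2, t3⟩
      · intro n hn
        obtain ⟨t1, t2, t3, t4⟩ := mem_filter.1 hn
        exact ⟨t2, (mem_Icc.1 t1).2, t3, t4⟩
    have hcov : {n : ℕ | ε * N ≤ n ∧ n ≤ N ∧ Odd n ∧ ¬ ∃ x y z w : ℤ, ∃ p : ℕ,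
        x ^ 2 + y ^ 2 + z ^ 2 + w ^ 2 = (n : ℤ) ∧
        (p : ℤ) = x ^ 2 + 3 * y ^ 2 + 5 * z ^ 2 + 7 * w ^ 2 ∧ p.Prime ∧ (p - (b - a)).Prime} ⊆
        ↑(univ.biUnion E) := by
      rintro n ⟨n1, n2, n3, n4⟩
      have hlt : N / 2 ^ (r + 1) < n := by
        rw [Nat.div_lt_iff_lt_mul (by positivity)]
        have e1 : (1 : ℝ) < ε * 2 ^ r := by
          rw [one_div, inv_pow, inv_lt_iff_one_lt_mul₀ (by positivity)] at hr
          exact hr
        have e2 : (N : ℝ) < n * 2 ^ (r + 1) := by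
          have e3 : (0 : ℝ) < 2 ^ r := by positivity
          have e4 : (0 : ℝ) ≤ n := Nat.cast_nonneg n
          rw [pow_succ]
          nlinarith
        exact_mod_cast e2
      obtain ⟨i, hi, i1, i2⟩ := block N n n2 r hlt
      rw [Finset.mem_coe, mem_biUnion]
      refine ⟨(⟨n / 2 % W, Nat.mod_lt _ hW⟩, ⟨i, hi⟩), mem_univ _, ?_⟩
      refine mem_filter.2 ⟨mem_Icc.2 ⟨Nat.zero_le _, i1⟩, i2, ?_, ?_⟩
      · obtain ⟨t, ht⟩ := n3
        have e1 : n / 2 = t := by omega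
        have e2 := Nat.div_add_mod t W
        refine ⟨2 * (t / W : ℕ), ?_⟩
        simp only [e1]
        have e3 : ((W * (t / W) + t % W : ℕ) : ℤ) = t := by rw [e2]
        have e4 : (n : ℤ) = 2 * t + 1 := by exact_mod_cast ht
        rw [Nat.cast_add, Nat.cast_mul] at e3
        linear_combination e4 - 2 * e3
      · rintro ⟨x, y, z, w, p, p1, p2, p3⟩
        obtain ⟨-, t2, -, t4⟩ := mem_filter.1 (Finset.mem_coe.1 p3)
        exact n4 ⟨x, y, z, w, p, p1, p2, t2, t4⟩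
    have hc1 := Set.ncard_le_ncard hcov (Finset.finite_toSet _)
    rw [Set.ncard_coe_finset] at hc1
    have hc2 : ((univ.biUnion E).card : ℝ) ≤ ∑ c, ((E c).card : ℝ) := by
      exact_mod_cast card_biUnion_le
    have hc3 : ∑ c, ((E c).card : ℝ) ≤ W * (r + 1) * (C * (r + 1) ^ A * N / Real.log N ^ A) := by
      refine le_trans (sum_le_sum fun c _ => hE c) ?_
      simp [Fintype.card_prod]
    refine le_trans (by exact_mod_cast hc1) (hc2.trans (hc3.trans ?_))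
    rw [← mul_div_assoc]
    refine div_le_div_of_nonneg_right ?_ (by positivity)
    have : (0 : ℝ) ≤ (N1 : ℝ) ^ A * N := by positivity
    nlinarith
  · obtain ⟨a, ha, b, hb, hab⟩ : ∃ a ∈ H, ∃ b ∈ H, a < b := by
      obtain ⟨a, ha, b, hb, hab⟩ := one_lt_card.1 (show 1 < H.card by omega)
      rcases lt_or_gt_of_ne hab with h | h
      · exact ⟨a, ha, b, hb, h⟩
      · exact ⟨b, hb, a, ha, h⟩
    refine ⟨a, ha, b, hb, hab, ?_⟩
    refine le_trans (b := (N : ℝ)) (Nat.cast_le.2 (small _ N fun n hn => ⟨hn.2.1, hn.2.2.1⟩)) ?_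
    rw [le_div_iff₀ (by positivity)]
    have e1 : Real.log N ≤ N1 := by
      have := Real.log_le_sub_one_of_pos hN0
      have e2 : (N : ℝ) ≤ N1 := by exact_mod_cast (show N ≤ N1 by omega)
      linarith
    have e2 : Real.log N ^ A ≤ (N1 : ℝ) ^ A := pow_le_pow_left₀ hl.le e1 A
    have e3 : (0 : ℝ) ≤ W * (r + 1) * (C * (r + 1) ^ A) := by positivity
    nlinarith

end Pool.Agent.P.MP_0ad054_nt.BG
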