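import Pool.Agent.P.MP_0ad054_nt.BG.Defs

/-! The spherical mean of the Fejer kernel and the triangle weight. -/

namespace Pool.Agent.P.MP_0ad054_nt.BG

open Finset MeasureTheory Complex Pool.Agent.Lib.H9 Pool.Agent.P.MP_0ad054_nt.Sun
  Pool.Agent.P.MP_0ad054_nt.Sun.SphereP

namespace KbP

theorem fej_nonneg (M R : ℕ) (s : ℝ) : 0 ≤ fej M R s := by
  unfold fej
  positivity

theorem fej_le (M R : ℕ) (s : ℝ) : fej M R s ≤ (R : ℝ) ^ 2 / (M * R) := by
  unfold fej
  refine div_le_div_of_nonneg_right ?_ (by positivity)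
  refine pow_le_pow_left₀ (norm_nonneg _) ?_ 2
  refine (norm_sum_le _ _).trans (le_of_eq ?_)
  simp [norm_e]

theorem fej_cont (M R : ℕ) : Continuous (fej M R) := by
  unfold fej e
  fun_prop

theorem one_le (S : Finset ℕ) (c m : ℤ) :
    0 ≤ (∑ t ∈ S, if c = m - t then (1 : ℝ) else 0) ∧
      (∑ t ∈ S, if c = m - t then (1 : ℝ) else 0) ≤ 1 := by
  refine ⟨sum_nonneg fun _ _ => by positivity, ?_⟩
  rw [sum_boole, Nat.cast_le_one]
  exact card_le_one.2 fun a ha b hb => by
    have h1 := (mem_filter.1 ha).2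
    have h2 := (mem_filter.1 hb).2
    omega

theorem diff (r : ℕ) (d : ℤ) : Clu.om r (d + 1) - Clu.om r d =
    (∑ j ∈ range r, ((if (-1 : ℤ) - j = d then (1 : ℝ) else 0) -
      if (r : ℤ) - 1 - j = d then (1 : ℝ) else 0)) / (r : ℝ) ^ 2 := by
  unfold Clu.om
  rw [← sub_div]
  congr 1
  rw [sum_comm, sum_comm (s := range r) (t := range r)
    (f := fun i j : ℕ => if (i : ℤ) - j = d then (1 : ℝ) else 0), ← sum_sub_distrib]
  refine sum_congr rfl fun j _ => ?_
  rw [← sum_sub_distrib]
  have h := Finset.sum_range_sub' (fun i : ℕ => if (i : ℤ) - 1 - j = d then (1 : ℝ) else 0) r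
  simp only [Nat.cast_zero, zero_sub] at h
  rw [← h]
  refine sum_congr rfl fun i _ => ?_
  congr 1
  · exact if_congr (by omega) rfl rfl
  · exact if_congr (by push_cast; omega) rfl rfl

end KbP

open KbP

theorem pWt : S_Wt := by
  intro r hr
  have r0 : (0 : ℝ) < r := by exact_mod_cast hr
  refine ⟨fun S m => ?_, fun d hd => ?_, fun a b t h1 h2 => ?_⟩
  · rw [← sum_sub_distrib]
    have h : ∀ t ∈ S, Clu.om r (m + 1 - t) - Clu.om r (m - t) =
        (∑ j ∈ range r, ((if (-1 : ℤ) - j = m - t then (1 : ℝ) else 0) -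
          if (r : ℤ) - 1 - j = m - t then (1 : ℝ) else 0)) / (r : ℝ) ^ 2 := by
      intro t _
      rw [← diff]
      congr 2
      ring
    rw [sum_congr rfl h, ← sum_div, sum_comm, abs_div, abs_of_pos (by positivity : (0 : ℝ) < r ^ 2),
      div_le_div_iff₀ (by positivity) r0]
    have h2 : |∑ j ∈ range r, ∑ t ∈ S, ((if (-1 : ℤ) - j = m - t then (1 : ℝ) else 0) -
        if (r : ℤ) - 1 - j = m - t then (1 : ℝ) else 0)| ≤ r := by
      refine (abs_sum_le_sum_abs _ _).trans ?_
      calc _ ≤ ∑ _j ∈ range r, (1 : ℝ) := sum_le_sum fun j _ => by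
            rw [sum_sub_distrib, abs_le]
            have h3 := one_le S (-1 - j) m
            have h4 := one_le S (r - 1 - j) m
            constructor <;> linarith [h3.1, h3.2, h4.1, h4.2]
        _ = r := by simp
    nlinarith [mul_le_mul_of_nonneg_right h2 r0.le]
  · by_contra hc
    apply hd
    unfold Clu.om
    rw [sum_eq_zero, zero_div]
    intro i hi
    refine sum_eq_zero fun j hj => if_neg fun h => hc ?_
    have := mem_range.1 hi
    have := mem_range.1 hj
    rw [abs_lt]
    omega
  · unfold Clu.om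
    rw [← sum_div, div_eq_one_iff_eq (by positivity), sum_comm]
    calc _ = ∑ _i ∈ range r, ∑ _j ∈ range r, (1 : ℝ) := by
          refine sum_congr rfl fun i hi => ?_
          rw [sum_comm]
          refine sum_congr rfl fun j hj => ?_
          have := mem_range.1 hi
          have := mem_range.1 hj
          rw [sum_eq_single (t + i - j)]
          · rw [if_pos (by ring)]
          · intro m _ hm
            exact if_neg fun h => hm (by omega)
          · intro hm
            exact absurd (mem_Icc.2 ⟨by omega, by omega⟩) hm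
      _ = _ := by simp [sq]

theorem pKb (h : S_Fej) : S_Kb := by
  intro ν hν N R n m hR hRN hn1 hn2 hm1 hm2
  obtain ⟨hp, -, hd, -⟩ := hν
  have hR' : (50 : ℝ) ≤ R := by exact_mod_cast hR
  have hRN' : (R : ℝ) ≤ N := by exact_mod_cast hRN
  have hn1' : (N : ℝ) ≤ 2 * n := by exact_mod_cast hn1
  have hn2' : (n : ℝ) ≤ N := by exact_mod_cast hn2
  have hm1' : 31 * (N : ℝ) ≤ 20 * m := by exact_mod_cast hm1
  have hm2' : 5 * (m : ℝ) ≤ 16 * N := by exact_mod_cast hm2
  have hN0 : (0 : ℝ) < N := by linarith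
  have hn0 : (0 : ℝ) < n := by linarith
  have hR0 : (0 : ℝ) < R := by linarith
  set u : ℝ := 5 * N / (4 * R) with hu
  have hu0 : 0 < u := by positivity
  have hu1 : u ≤ N / 40 := by
    rw [hu, div_le_div_iff₀ (by positivity) (by norm_num)]
    nlinarith
  have hf := (h (20 * N) R (by omega) (by omega)).2.2.1
  have hcont : Continuous fun t : ℝ => fej (20 * N) R (t * n - m) :=
    (fej_cont _ _).comp (by fun_prop)
  have hint : Integrable (fun t : ℝ => fej (20 * N) R (t * n - m)) ν :=
    Integrable.of_bound hcont.aestronglyMeasurable ((R : ℝ) ^ 2 / ((20 * N : ℕ) * R))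
      (Filter.Eventually.of_forall fun t => by
        rw [Real.norm_of_nonneg (fej_nonneg _ _ _)]
        exact fej_le _ _ _)
  have hmeas := hd ((m - u) / n) ((m + u) / n)
    (by rw [le_div_iff₀ hn0]; linarith)
    (div_le_div_of_nonneg_right (by linarith) hn0.le)
    (by rw [div_le_iff₀ hn0]; linarith)
  have hlow : ∀ t ∈ Set.Icc ((m - u) / n) ((m + u) / n),
      (R : ℝ) / (80 * N) ≤ fej (20 * N) R (t * n - m) := by
    intro t ht
    have h1 := (div_le_iff₀ hn0).1 ht.1
    have h2 := (le_div_iff₀ hn0).1 ht.2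
    have h3 := hf (t * n - m) (by
      have : ((20 * N : ℕ) : ℝ) / (16 * R) = u := by
        rw [hu]; push_cast; field_simp; ring
      rw [this, abs_le]
      constructor <;> linarith)
    refine le_trans (le_of_eq ?_) h3
    push_cast
    ring
  have h1 := setIntegral_ge_of_const_le (μ := ν) measurableSet_Icc (measure_ne_top _ _) hlow
    hint.integrableOn
  have h2 := setIntegral_le_integral (μ := ν) (s := Set.Icc ((m - u) / n) ((m + u) / n)) hint
    (Filter.Eventually.of_forall fun t => fej_nonneg _ _ _)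
  refine le_trans ?_ (h1.trans h2)
  have h3 : 1 / (120 * (R : ℝ)) ≤ ν.real (Set.Icc ((m - u) / n) ((m + u) / n)) := by
    refine le_trans ?_ hmeas
    have : ((m + u) / n - (m - u) / n) / 300 = (N / n) * (1 / (120 * (R : ℝ))) := by
      rw [hu]; field_simp; ring
    rw [this]
    have h4 : 1 ≤ (N : ℝ) / n := (one_le_div hn0).2 hn2'
    have h5 : (0 : ℝ) ≤ 1 / (120 * R) := by positivity
    nlinarith
  have h6 : (0 : ℝ) ≤ R / (80 * N) := by positivity
  calc 1 / (10000 * (N : ℝ)) ≤ 1 / (9600 * N) :=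
        one_div_le_one_div_of_le (by positivity) (by linarith)
    _ = 1 / (120 * (R : ℝ)) * (R / (80 * N)) := by field_simp; ring
    _ ≤ ν.real (Set.Icc ((m - u) / n) ((m + u) / n)) * (R / (80 * N)) :=
        mul_le_mul_of_nonneg_right h3 h6
    _ = _ := by simp [mul_comm]

end Pool.Agent.P.MP_0ad054_nt.BG
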