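import Pool.Agent.P.MP_0ad054_nt.BG.Defs

/-! Slowly varying weights on the values of the form. -/

namespace Pool.Agent.P.MP_0ad054_nt.BG

open Finset MeasureTheory Complex Pool.Agent.Lib.H9 Pool.Agent.P.MP_0ad054_nt.Sun
  Pool.Agent.P.MP_0ad054_nt.Sun.SphereP

namespace LipP

theorem fej_nonneg (M R : ℕ) (s : ℝ) : 0 ≤ fej M R s := by unfold fej; positivity

theorem lip {w : ℤ → ℝ} {Λ : ℝ} (h : ∀ m, |w (m + 1) - w m| ≤ Λ) (s m : ℤ) :
    w m ≤ w s + Λ * |(s : ℝ) - m| := by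
  have key : ∀ (a : ℤ) (k : ℕ), |w (a + k) - w a| ≤ Λ * k := fun a k => by
    induction k with
    | zero => simp
    | succ k ih =>
      have := h (a + k)
      rw [Nat.cast_succ, Nat.cast_succ, ← add_assoc, mul_add, mul_one]
      exact (abs_sub_le _ (w (a + k)) _).trans (by linarith)
  rcases le_total s m with e | e
  · obtain ⟨k, rfl⟩ := Int.le.dest e
    have := (abs_le.1 (key s k)).2
    push_cast
    rw [sub_add_cancel_left, abs_neg, Nat.abs_cast]
    linarith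
  · obtain ⟨k, rfl⟩ := Int.le.dest e
    have := (abs_le.1 (key m k)).1
    push_cast
    rw [add_sub_cancel_left, Nat.abs_cast]
    linarith

/-- the smoothed weight does not exceed the weight by much -/
theorem point (h2 : S_Fej) {N R : ℕ} {w : ℤ → ℝ} {Λ : ℝ} (hR : 1 ≤ R) (hRN : R ≤ N)
    (hw : ∀ m, 0 ≤ w m ∧ w m ≤ 1 ∧ |w (m + 1) - w m| ≤ Λ) {s : ℤ} (h0 : 0 ≤ s) (h7 : s ≤ 7 * N) :
    ∑ m ∈ Icc (0 : ℤ) (4 * N), w m * fej (20 * N) R (s - m) ≤
      w s + 20 * (Λ * N + 1) / Real.sqrt R := by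
  obtain ⟨-, f2, -, f4⟩ := h2 (20 * N) R hR (by omega)
  have hΛ : 0 ≤ Λ := (abs_nonneg _).trans (hw 0).2.2
  have r1 : (1 : ℝ) ≤ R := by exact_mod_cast hR
  have rN : (R : ℝ) ≤ N := by exact_mod_cast hRN
  have q1 : 1 ≤ Real.sqrt R := Real.one_le_sqrt.2 r1
  have q2 : Real.sqrt R * Real.sqrt R = R := Real.mul_self_sqrt (by linarith)
  have t1 : 1 ≤ (N : ℝ) / Real.sqrt R := (one_le_div (by linarith)).2 (by nlinarith)
  set t := (N : ℝ) / Real.sqrt R with ht
  set I := Ico (s - 10 * N) (s - 10 * N + ((20 * N : ℕ) : ℤ)) with hI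
  have tail : ∑ m ∈ I.filter (fun m : ℤ => t ≤ |(s : ℝ) - m|), fej (20 * N) R (s - (m : ℤ)) ≤
      20 / Real.sqrt R := by
    have := f4 ((I.filter fun m : ℤ => t ≤ |(s : ℝ) - m|).image fun m => s - m) t t1 fun x hx => by
      obtain ⟨m, hm, rfl⟩ := mem_image.1 hx
      obtain ⟨hm, hm'⟩ := mem_filter.1 hm
      rw [hI, mem_Ico] at hm
      refine ⟨by push_cast; exact hm', ?_⟩
      have : 2 * |s - m| ≤ ((20 * N : ℕ) : ℤ) := by
        have : |s - m| ≤ 10 * N := abs_le.2 ⟨by omega, by omega⟩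
        omega
      exact_mod_cast this
    rw [sum_image fun a _ b _ e => sub_right_injective e] at this
    push_cast at this
    refine this.trans (le_of_eq ?_)
    rw [ht]
    have : (N : ℝ) ≠ 0 := by linarith
    field_simp
    nlinarith
  calc _ ≤ ∑ m ∈ I, w m * fej (20 * N) R (s - m) := by
        refine sum_le_sum_of_subset_of_nonneg (fun m hm => ?_)
          fun m _ _ => mul_nonneg (hw m).1 (fej_nonneg _ _ _)
        rw [mem_Icc] at hm
        rw [hI, mem_Ico]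
        omega
    _ ≤ ∑ m ∈ I, ((w s + Λ * t) * fej (20 * N) R (s - m) +
          if t ≤ |(s : ℝ) - m| then fej (20 * N) R (s - m) else 0) := by
        refine sum_le_sum fun m _ => ?_
        have p := fej_nonneg (20 * N) R (s - m)
        split_ifs with e
        · have : 0 ≤ w s + Λ * t := add_nonneg (hw s).1 (by positivity)
          nlinarith [(hw m).2.1, mul_nonneg this p]
        · rw [add_zero]
          refine mul_le_mul_of_nonneg_right ((lip (fun m => (hw m).2.2) s m).trans ?_) p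
          gcongr
          exact (not_le.1 e).le
    _ ≤ w s + Λ * t + 20 / Real.sqrt R := by
        rw [sum_add_distrib, ← mul_sum, f2, mul_one, ← sum_filter]
        linarith
    _ ≤ _ := by
        have : 0 ≤ Λ * N / Real.sqrt R := by positivity
        have e : 20 * (Λ * N + 1) / Real.sqrt R =
          20 * (Λ * N / Real.sqrt R) + 20 / Real.sqrt R := by ring
        rw [e, ht, ← mul_div_assoc]
        linarith

theorem mem_pl {D : ℕ} {δ : ℤ × ℤ} {n : ℤ} {v : Fin 4 → ℤ} (h : v ∈ pl D δ n) : nsq v = n :=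
  mem_sphere.1 (mem_filter.1 (mem_filter.1 h).1).1

theorem count (N D : ℕ) (δ : ℤ × ℤ) (E : Finset ℕ) (hN : 1 ≤ N) (hE : ∀ n ∈ E, n ≤ N) :
    ∑ n ∈ E, ((pl D δ n).card : ℝ) ≤ 81 * (N : ℝ) ^ 2 := by
  have h1 : (E.sigma fun n => pl D δ n).card ≤
      (Fintype.piFinset fun _ : Fin 4 => Icc (-(N.sqrt : ℤ)) N.sqrt).card := by
    refine card_le_card_of_injOn (fun x => x.2) (fun x hx => ?_) fun x hx y hy e => ?_
    · obtain ⟨a, b⟩ := mem_sigma.1 hx
      refine Fintype.mem_piFinset.2 fun j => mem_Icc.2 (abs_le.1 ?_)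
      have p : x.2 j ^ 2 ≤ nsq x.2 :=
        single_le_sum (f := fun j => x.2 j ^ 2) (fun _ _ => sq_nonneg _) (mem_univ j)
      rw [mem_pl b, ← Int.natAbs_sq] at p
      have q : (x.2 j).natAbs ≤ N.sqrt := Nat.le_sqrt'.2 (by
        have := hE _ a
        exact_mod_cast p.trans (show ((x.1 : ℕ) : ℤ) ≤ (N : ℤ) by exact_mod_cast this))
      rw [Int.abs_eq_natAbs]
      exact_mod_cast q
    · have a := mem_pl (mem_sigma.1 hx).2
      have b := mem_pl (mem_sigma.1 hy).2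
      have e' : x.2 = y.2 := e
      exact Sigma.ext (by rw [e'] at a; exact_mod_cast a.symm.trans b) (heq_of_eq e')
  rw [card_sigma, Fintype.card_piFinset, prod_const, card_univ, Fintype.card_fin,
    Int.card_Icc] at h1
  have k1 : 1 ≤ N.sqrt := Nat.le_sqrt'.2 (by simpa using hN)
  have h2 : ((N.sqrt : ℤ) + 1 - -(N.sqrt : ℤ)).toNat ≤ 3 * N.sqrt := by omega
  have h3 : (3 * N.sqrt) ^ 4 ≤ 81 * N ^ 2 := by
    have := Nat.pow_le_pow_left (Nat.sqrt_le' N) 2
    calc _ = 81 * (N.sqrt ^ 2) ^ 2 := by ring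
      _ ≤ _ := by omega
  exact_mod_cast h1.trans ((Nat.pow_le_pow_left h2 4).trans h3)

theorem int_e (ν : Measure ℝ) [IsProbabilityMeasure ν] (η n : ℝ) :
    Integrable (fun t : ℝ => e (η * (t * n))) ν :=
  .of_bound (Continuous.aestronglyMeasurable (by unfold e; fun_prop)) 1
    (.of_forall fun _ => (norm_e _).le)

/-- the kernel on the values of the form against its spherical mean -/
theorem equi (h2 : S_Fej) (ν : Measure ℝ) [IsProbabilityMeasure ν] {M R D : ℕ} {δ : ℤ × ℤ}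
    {E : Finset ℕ} {B : ℝ} (hR : 1 ≤ R) (hM : R ≤ M) (hB : ∀ η : ℝ, |η| ≤ R / M →
      ‖∑ n ∈ E, ∑ v ∈ pl D δ n, (e (η * (Q2 v : ℤ)) - sm ν η n)‖ ≤ B) (m : ℤ) :
    |∑ n ∈ E, ∑ v ∈ pl D δ n, (fej M R ((Q2 v : ℤ) - m) - ∫ t : ℝ, fej M R (t * n - m) ∂ν)| ≤
      R / M * B := by
  obtain ⟨f1, -⟩ := h2 M R hR hM
  have r0 : (0 : ℝ) < R := by exact_mod_cast hR
  have m0 : (0 : ℝ) < M := by exact_mod_cast hR.trans hM
  have f : ∀ x : ℝ, (fej M R (x - m) : ℂ) = 1 / (M * R) * ∑ r ∈ range R, ∑ r' ∈ range R,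
      e (-((((r : ℝ) - r') / M) * m)) * e (((r : ℝ) - r') / M * x) := fun x => by
    rw [f1]
    refine congrArg _ (sum_congr rfl fun r _ => sum_congr rfl fun r' _ => ?_)
    rw [← e_add]
    exact congrArg e (by ring)
  have g : ∀ n : ℕ, ((∫ t : ℝ, fej M R (t * n - m) ∂ν : ℝ) : ℂ) =
      1 / (M * R) * ∑ r ∈ range R, ∑ r' ∈ range R,
        e (-((((r : ℝ) - r') / M) * m)) * sm ν (((r : ℝ) - r') / M) n := fun n => by
    rw [← integral_complex_ofReal]
    simp only [f]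
    rw [integral_const_mul, integral_finsetSum _ fun r _ =>
      integrable_finsetSum _ fun r' _ => (int_e ν _ _).const_mul _]
    refine congrArg _ (sum_congr rfl fun r _ => ?_)
    rw [integral_finsetSum _ fun r' _ => (int_e ν _ _).const_mul _]
    refine sum_congr rfl fun r' _ => ?_
    rw [integral_const_mul, sm, Int.cast_natCast]
  have key : ((∑ n ∈ E, ∑ v ∈ pl D δ n, (fej M R ((Q2 v : ℤ) - m) -
      ∫ t : ℝ, fej M R (t * n - m) ∂ν) : ℝ) : ℂ) = 1 / (M * R) * ∑ r ∈ range R, ∑ r' ∈ range R,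
        e (-((((r : ℝ) - r') / M) * m)) * ∑ n ∈ E, ∑ v ∈ pl D δ n,
          (e (((r : ℝ) - r') / M * (Q2 v : ℤ)) - sm ν (((r : ℝ) - r') / M) n) := by
    rw [ofReal_sum]
    simp only [ofReal_sum, ofReal_sub, f, g, ← mul_sub, ← sum_sub_distrib, ← mul_sum]
    refine congrArg _ ?_
    simp only [mul_sum]
    rw [sum_congr rfl fun n _ => sum_comm, sum_comm]
    refine sum_congr rfl fun r _ => ?_
    rw [sum_congr rfl fun n _ => sum_comm, sum_comm]
  rw [← Real.norm_eq_abs, ← norm_real, key, norm_mul]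
  have b : ‖∑ r ∈ range R, ∑ r' ∈ range R,
      e (-((((r : ℝ) - r') / M) * m)) * ∑ n ∈ E, ∑ v ∈ pl D δ n,
        (e (((r : ℝ) - r') / M * (Q2 v : ℤ)) - sm ν (((r : ℝ) - r') / M) n)‖ ≤ R * (R * B) := by
    refine (norm_sum_le_of_le _ (n := fun _ => R * B) fun r hr => ?_).trans (by simp)
    refine (norm_sum_le_of_le _ (n := fun _ => B) fun r' hr' => ?_).trans (by simp)
    rw [norm_mul, norm_e, one_mul]
    refine hB _ ?_
    have a1 : (r : ℝ) ≤ R := by exact_mod_cast (mem_range.1 hr).le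
    have a2 : (r' : ℝ) ≤ R := by exact_mod_cast (mem_range.1 hr').le
    rw [abs_div, Nat.abs_cast]
    refine div_le_div_of_nonneg_right (abs_le.2 ⟨?_, ?_⟩) m0.le
    · linarith [r.cast_nonneg (α := ℝ)]
    · linarith [r'.cast_nonneg (α := ℝ)]
  refine (mul_le_mul_of_nonneg_left b (norm_nonneg _)).trans (le_of_eq ?_)
  simp only [norm_div, norm_one, norm_mul, norm_natCast]
  field_simp

end LipP

open LipP in
theorem pLip (h0 : S_Feyn) (h1 : S_AngP) (h2 : S_Fej) (h3 : S_Kb) : S_Lip := by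
  obtain ⟨ν, hν⟩ := h0
  have := hν.1
  obtain ⟨C, hC, h1⟩ := h1 ν hν
  refine ⟨C + 1620, by positivity, fun N D y R δ E w Λ hD hy hR hRN hE hw hs => ?_⟩
  have r50 : (50 : ℝ) ≤ R := by exact_mod_cast hR
  have hN : 1 ≤ N := Nat.pos_of_ne_zero fun e => by
    rw [e, Nat.cast_zero, Real.zero_rpow (by norm_num)] at hRN
    linarith
  have n1 : (1 : ℝ) ≤ N := by exact_mod_cast hN
  have hle : R ≤ N := by
    have := hRN.trans (Real.rpow_le_self_of_one_le n1 (by norm_num))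
    exact_mod_cast this
  have hΛ : 0 ≤ Λ := (abs_nonneg _).trans (hw 0).2.2
  set B := C * y * (N : ℝ) ^ (2 - 1 / 2000 : ℝ) with hB
  have B0 : 0 ≤ B := by positivity
  have eq := equi h2 ν (M := 20 * N) (R := R) (D := D) (δ := δ) (E := E) (B := B) (by omega)
    (by omega) fun η hη => h1 N D y δ E η hN hD hy (hη.trans (by
      push_cast
      exact div_le_div₀ (by positivity) hRN (by linarith) (by linarith)))
      fun n hn => (hE n hn).2
  have hP := count N D δ E hN fun n hn => (hE n hn).2.1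
  set P := ∑ n ∈ E, ((pl D δ n).card : ℝ) with hPd
  have low : ∀ m ∈ Icc (0 : ℤ) (4 * N), w m * (P / (10000 * N)) - R / (20 * N) * B ≤
      w m * ∑ n ∈ E, ∑ v ∈ pl D δ n, fej (20 * N) R ((Q2 v : ℤ) - m) := fun m _ => by
    have b0 : 0 ≤ R / (20 * (N : ℝ)) * B := by positivity
    by_cases e : w m = 0
    · simp only [e, zero_mul]
      linarith
    have a := (abs_le.1 (eq m)).1
    push_cast at a
    simp only [sum_sub_distrib, sum_const, nsmul_eq_mul] at a
    have b : P / (10000 * N) ≤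
        ∑ n ∈ E, ((pl D δ n).card : ℝ) * ∫ t : ℝ, fej (20 * N) R (t * n - m) ∂ν := by
      rw [hPd, sum_div]
      refine sum_le_sum fun n hn => ?_
      rw [div_eq_mul_one_div]
      exact mul_le_mul_of_nonneg_left (h3 ν hν N R n m hR hle (hE n hn).1 (hE n hn).2.1
        (hs m e).1 (hs m e).2) (by positivity)
    nlinarith [(hw m).1, (hw m).2.1, mul_le_mul_of_nonneg_left (a.trans (sub_le_sub_left b _))
      (hw m).1]
  have up : ∑ m ∈ Icc (0 : ℤ) (4 * N),
      w m * ∑ n ∈ E, ∑ v ∈ pl D δ n, fej (20 * N) R ((Q2 v : ℤ) - m) ≤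
      ∑ n ∈ E, ∑ v ∈ pl D δ n, w (Q2 v) + P * (20 * (Λ * N + 1) / Real.sqrt R) := by
    simp only [mul_sum]
    rw [sum_comm, hPd, sum_mul, ← sum_add_distrib]
    refine sum_le_sum fun n hn => ?_
    rw [sum_comm, ← nsmul_eq_mul, ← sum_const, ← sum_add_distrib]
    refine sum_le_sum fun v hv => ?_
    have a := mem_pl hv
    have b : (n : ℤ) ≤ N := by exact_mod_cast (hE n hn).2.1
    rw [nsq_eq'] at a
    exact point h2 (by omega) hle hw (by unfold Q2; positivity) (by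
      unfold Q2
      nlinarith [sq_nonneg (v 0), sq_nonneg (v 1), sq_nonneg (v 2)])
  have s := (sum_le_sum low).trans up
  rw [sum_sub_distrib, ← sum_mul, sum_const, Int.card_Icc, nsmul_eq_mul] at s
  have c1 : (((4 * (N : ℤ) + 1 - 0).toNat : ℕ) : ℝ) * (R / (20 * N) * B) ≤ R * B := by
    have : (((4 * (N : ℤ) + 1 - 0).toNat : ℕ) : ℝ) ≤ 20 * N := by
      exact_mod_cast (show (4 * (N : ℤ) + 1 - 0).toNat ≤ 20 * N by omega)
    refine (mul_le_mul_of_nonneg_right this (by positivity)).trans (le_of_eq ?_)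
    field_simp
  have c2 : P * (20 * (Λ * N + 1) / Real.sqrt R) ≤
      1620 * ((Λ * N + 1) * (N : ℝ) ^ 2 / Real.sqrt R) :=
    (mul_le_mul_of_nonneg_right hP (by positivity)).trans (le_of_eq (by ring))
  have c3 : 0 ≤ (y : ℝ) * R * (N : ℝ) ^ (2 - 1 / 2000 : ℝ) := by positivity
  have c4 : 0 ≤ C * ((Λ * N + 1) * (N : ℝ) ^ 2 / Real.sqrt R) := by positivity
  have c5 : R * B = C * (y * R * (N : ℝ) ^ (2 - 1 / 2000 : ℝ)) := by rw [hB]; ring
  rw [div_mul_eq_mul_div, mul_div_assoc]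
  nlinarith

end Pool.Agent.P.MP_0ad054_nt.BG
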