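import Pool.Agent.P.MP_0ad054_nt.BG.Defs
import Pool.Agent.P.MP_0ad054_nt.Sun.GammaA

/-! The theta series of a diagonal form is close to the zeroth term of its dual series. -/

namespace Pool.Agent.P.MP_0ad054_nt.BG

open Finset MeasureTheory Complex Pool.Agent.Lib.H9 Pool.Agent.P.MP_0ad054_nt.Sun
  Pool.Agent.P.MP_0ad054_nt.Sun.SphereP

namespace PoisP

theorem norm_fhat {M : ℕ} {φ : (Fin 4 → ℤ) → ℂ} (hφ : ∀ v, ‖φ v‖ ≤ 1) (k : Fin 4 → ℤ) :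
    ‖fhat M φ k‖ ≤ (M : ℝ) ^ 4 := by
  unfold fhat
  refine (norm_sum_le _ _).trans ?_
  have h := sum_le_card_nsmul (res M) (fun r => ‖φ r * ee (dot k r / M)‖) 1 fun r _ => by
    rw [norm_mul, norm_ee_div, mul_one]
    exact hφ r
  rw [card_res, nsmul_eq_mul] at h
  refine h.trans (le_of_eq ?_)
  push_cast
  ring

theorem half {M : ℕ} (hM : M ≠ 0) {w : ℂ} (hw : w ≠ 0) :
    1 / (w * M ^ 2) ^ (1 / 2 : ℂ) = 1 / (M : ℂ) * (1 / w ^ (1 / 2 : ℂ)) := by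
  have hMr : (0 : ℝ) < M := by exact_mod_cast Nat.pos_of_ne_zero hM
  have h1 : w * (M : ℂ) ^ 2 = (((M : ℝ) ^ 2 : ℝ) : ℂ) * w := by
    push_cast
    ring
  have h2 : (((M : ℝ) ^ 2 : ℝ) : ℂ) ^ (1 / 2 : ℂ) = M := by
    have h3 : (1 / 2 : ℂ) = ((1 / 2 : ℝ) : ℂ) := by push_cast; rfl
    rw [h3, ← Complex.ofReal_cpow (by positivity), ← Real.sqrt_eq_rpow, Real.sqrt_sq hMr.le]
    simp
  have h4 : ((((M : ℝ) ^ 2 : ℝ) : ℂ) * w) ^ (1 / 2 : ℂ) =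
      (((M : ℝ) ^ 2 : ℝ) : ℂ) ^ (1 / 2 : ℂ) * w ^ (1 / 2 : ℂ) := by
    have h5 : (((M : ℝ) ^ 2 : ℝ) : ℂ) ≠ 0 := by exact_mod_cast (pow_pos hMr 2).ne'
    rw [Complex.cpow_def_of_ne_zero (mul_ne_zero h5 hw), Complex.cpow_def_of_ne_zero h5,
      Complex.cpow_def_of_ne_zero hw, Complex.log_ofReal_mul (by positivity) hw, add_mul,
      Complex.exp_add, Complex.ofReal_log (by positivity)]
  rw [h1, h4, h2, one_div_mul_one_div]

end PoisP

open PoisP GammaP in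
theorem pPois : S_Pois := by
  obtain ⟨C, hC, h⟩ := dual_tail_le
  refine ⟨C ^ 2, by positivity, fun M φ z t0 hM hφ hφ1 hz ht0 ht => ?_⟩
  have hMr : (0 : ℝ) < M := by exact_mod_cast Nat.pos_of_ne_zero hM
  have hz0 : ∀ j, z j ≠ 0 := fun j h => by
    have := hz j
    rw [h] at this
    simp at this
  have hn : ∀ j, 0 < ‖z j‖ := fun j => norm_pos_iff.2 (hz0 j)
  set T : (Fin 4 → ℤ) → ℂ :=
    fun k => fhat M φ k * ∏ j, ee (-1 / (4 * z j * M ^ 2) * (k j : ℂ) ^ 2) with hT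
  have hne : ∀ j (x : ℤ), ‖ee (-1 / (4 * z j * M ^ 2) * (x : ℂ) ^ 2)‖ ≤
      Real.exp (-Real.pi * t0 * (x : ℝ) ^ 2) := by
    intro j x
    rw [norm_ee]
    have e1 : (-1 / (4 * z j * M ^ 2) * (x : ℂ) ^ 2).im =
        (-1 / (4 * z j * M ^ 2) : ℂ).im * (x : ℝ) ^ 2 := by
      rw [← Complex.im_mul_ofReal]
      push_cast
      rfl
    rw [e1, dual_im hM (hz j), Real.exp_le_exp]
    have e2 : (z j).im / (4 * M ^ 2 * ‖z j‖ ^ 2) = (z j).im / (2 * (M : ℝ) ^ 2 * ‖z j‖ ^ 2) / 2 := by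
      have := hn j
      field_simp
      ring
    rw [e2]
    have e3 := mul_le_mul_of_nonneg_right (ht j)
      (mul_nonneg Real.pi_pos.le (sq_nonneg (x : ℝ)))
    linarith
  have hTn : ∀ k, ‖T k‖ ≤ (M : ℝ) ^ 4 * Real.exp (-Real.pi * t0 * (nsq k : ℝ)) := by
    intro k
    rw [hT]
    simp only [norm_mul, norm_prod]
    refine mul_le_mul (norm_fhat hφ1 k) ?_ (by positivity) (by positivity)
    refine (prod_le_prod (fun j _ => norm_nonneg _) fun j _ => hne j (k j)).trans (le_of_eq ?_)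
    rw [← Real.exp_sum, ← mul_sum]
    unfold nsq
    push_cast
    rfl
  have hs : Summable T :=
    Summable.of_norm_bounded ((summable_gauss4 ht0).mul_left ((M : ℝ) ^ 4)) hTn
  have hT0 : T 0 = fhat M φ 0 := by simp [hT, ee_zero]
  set σ : ℂ := I * (t0 / 2 : ℝ) with hσ
  have hσn : ∀ k : Fin 4 → ℤ, ‖ee (σ * nsq k)‖ = Real.exp (-Real.pi * t0 * (nsq k : ℝ)) :=
    fun k => norm_ee_I_mul t0 (nsq k)
  have hσ0 : ∀ k : Fin 4 → ℤ, ee (σ * nsq k) ≠ 0 := fun k => by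
    rw [← norm_pos_iff, hσn]
    exact Real.exp_pos _
  have hσi : σ.im = t0 / 2 := by simp [hσ]
  have htail := h σ (fun k => (if k = 0 then 0 else T k) / ee (σ * nsq k)) ((M : ℝ) ^ 4)
    (by rw [hσi]; positivity) (by simp) (fun k => by
      rw [norm_div, hσn, div_le_iff₀ (Real.exp_pos _)]
      split_ifs
      · rw [norm_zero]
        positivity
      · exact hTn k)
  simp_rw [div_mul_cancel₀ _ (hσ0 _)] at htail
  rw [hσi] at htail
  have hw : ∀ j, -2 * I * z j ≠ 0 := fun j => mul_ne_zero (by simp) (hz0 j)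
  have hP : ∏ j, 1 / (-2 * I * z j * M ^ 2) ^ (1 / 2 : ℂ) =
      1 / (M : ℂ) ^ 4 * ∏ j, 1 / (-2 * I * z j) ^ (1 / 2 : ℂ) := by
    simp_rw [half hM (hw _)]
    rw [prod_mul_distrib, prod_const, card_univ, Fintype.card_fin, one_div_pow]
  have h2 : ∀ j, ‖1 / (-2 * I * z j) ^ (1 / 2 : ℂ)‖ ^ 2 = 1 / 2 * (1 / ‖z j‖) := by
    intro j
    rw [← norm_pow, one_div_pow, one_div (2 : ℂ), Complex.cpow_ofNat_inv_pow]
    simp [mul_comm]
  have e : ∑' v : Fin 4 → ℤ, φ v * ∏ j, ee (z j * (v j : ℂ) ^ 2) -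
      fhat M φ 0 / (M : ℂ) ^ 4 * ∏ j, 1 / (-2 * I * z j) ^ (1 / 2 : ℂ) =
      (∏ j, 1 / (-2 * I * z j) ^ (1 / 2 : ℂ)) *
        ((∑' k, if k = 0 then 0 else T k) / (M : ℂ) ^ 4) := by
    rw [poisson_diag hM hφ hz, hP]
    change _ * tsum T - _ = _
    rw [hs.tsum_eq_add_tsum_ite 0, hT0]
    ring
  have h3 : ‖(∑' k, if k = 0 then 0 else T k) / (M : ℂ) ^ 4‖ ≤ 4 * C / t0 ^ 2 := by
    rw [norm_div, norm_pow, Complex.norm_natCast, div_le_iff₀ (by positivity)]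
    refine htail.trans (le_of_eq ?_)
    field_simp
    ring
  rw [e, norm_mul, mul_pow, norm_prod, ← prod_pow]
  simp_rw [h2]
  rw [prod_mul_distrib, prod_const, card_univ, Fintype.card_fin]
  have h4 : 0 ≤ ∏ j, 1 / ‖z j‖ := prod_nonneg fun j _ => by positivity
  calc _ ≤ ((1 / 2) ^ 4 * ∏ j, 1 / ‖z j‖) * (4 * C / t0 ^ 2) ^ 2 := by gcongr
    _ = _ := by
        field_simp
        ring

end Pool.Agent.P.MP_0ad054_nt.BG
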