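import Pool.Agent.P.MP_0ad054_nt.BG.Defs
import Pool.Agent.P.MP_0ad054_nt.Sun.GammaA

/-! The theta series away from the centres of the major arcs. -/

namespace Pool.Agent.P.MP_0ad054_nt.BG

open Finset MeasureTheory Complex Pool.Agent.Lib.H9 Pool.Agent.P.MP_0ad054_nt.Sun
  Pool.Agent.P.MP_0ad054_nt.Sun.SphereP

namespace PtP

theorem sq_le_a {Q t θ x y : ℝ} (hQ : 1 ≤ Q) (hy : 0 < y) (hθ : |θ| ≤ 7 * Q * y) (h1 : y ≤ x)
    (h2 : |t + θ| ≤ x) : t ^ 2 + y ^ 2 ≤ 65 * Q ^ 2 * x ^ 2 := by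
  have hx : 0 < x := hy.trans_le h1
  have a1 : |t| ≤ |t + θ| + |θ| := by
    have := abs_sub (t + θ) θ
    rwa [add_sub_cancel_right] at this
  have a2 : Q * y ≤ Q * x := by gcongr
  have a3 : x ≤ Q * x := le_mul_of_one_le_left hx.le hQ
  have a4 : |t| ≤ 8 * (Q * x) := by linarith
  have a5 : t ^ 2 ≤ (8 * (Q * x)) ^ 2 := by
    rw [← sq_abs t]
    exact pow_le_pow_left₀ (abs_nonneg _) a4 2
  have a6 : y ^ 2 ≤ (Q * x) ^ 2 := pow_le_pow_left₀ hy.le (h1.trans a3) 2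
  nlinarith

theorem sq_le_b {Q t θ x y : ℝ} (hQ : 1 ≤ Q) (hy : 0 < y) (hθ : |θ| ≤ 7 * Q * y) (h1 : y ≤ x)
    (h2 : |t + θ| ≤ x) (h3 : Q ^ 12 * y < |t|) : t ^ 2 + y ^ 2 ≤ 800 * x ^ 2 := by
  have hx : 0 < x := hy.trans_le h1
  have a1 : |t| ≤ |t + θ| + |θ| := by
    have := abs_sub (t + θ) θ
    rwa [add_sub_cancel_right] at this
  have a6 : y ^ 2 ≤ x ^ 2 := pow_le_pow_left₀ hy.le h1 2
  have a4 : |t| ≤ 28 * x := by
    rcases le_total (14 * Q * y) |t| with h | h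
    · linarith
    · have hQ2 : Q ≤ 2 := by
        by_contra hc
        have b1 : (2 : ℝ) ^ 11 ≤ Q ^ 11 := pow_le_pow_left₀ (by norm_num) (not_le.1 hc).le 11
        have b2 : Q ^ 11 * (Q * y) < 14 * (Q * y) := by
          calc _ = Q ^ 12 * y := by ring
            _ < |t| := h3
            _ ≤ _ := by linarith
        have b3 : Q ^ 11 < 14 := lt_of_mul_lt_mul_right b2 (by positivity)
        linarith
      have : Q * y ≤ 2 * x := mul_le_mul hQ2 h1 hy.le (by norm_num)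
      linarith
  have a5 : t ^ 2 ≤ (28 * x) ^ 2 := by
    rw [← sq_abs t]
    exact pow_le_pow_left₀ (abs_nonneg _) a4 2
  nlinarith

theorem key {Q q t θ x : ℝ} (hQ : 1 ≤ Q) (hq : 1 ≤ q) (hθ : |θ| ≤ 7 * Q / Q ^ 1000)
    (h1 : 1 / Q ^ 1000 ≤ x) (h2 : |t + θ| ≤ x) (hn : ¬ (q ≤ Q ^ 12 ∧ |t| ≤ Q ^ 12 / Q ^ 1000)) :
    Q ^ 8 / q ^ 4 * (1 / x) ^ 4 ≤
      640000 * (Q ^ 1998 / q ^ 3 / (t ^ 2 + (1 / Q ^ 1000) ^ 2)) := by
  have hy : (0 : ℝ) < 1 / Q ^ 1000 := by positivity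
  have hx : 0 < x := hy.trans_le h1
  have hθ' : |θ| ≤ 7 * Q * (1 / Q ^ 1000) := by rwa [mul_one_div]
  have hS : 0 < t ^ 2 + (1 / Q ^ 1000) ^ 2 := by positivity
  by_cases hc : q ≤ Q ^ 12
  · have h3 : Q ^ 12 * (1 / Q ^ 1000) < |t| := by
      rw [mul_one_div]
      exact not_le.1 fun h => hn ⟨hc, h⟩
    have b1 := sq_le_b hQ hy hθ' h1 h2 h3
    have b2 : 1 / (t ^ 2 + (1 / Q ^ 1000) ^ 2) ≤ Q ^ 1976 := by
      have c1 : (Q ^ 12 * (1 / Q ^ 1000)) ^ 2 ≤ t ^ 2 := by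
        rw [← sq_abs t]
        exact pow_le_pow_left₀ (by positivity) h3.le 2
      have c2 : Q ^ 1976 * (Q ^ 12 * (1 / Q ^ 1000)) ^ 2 = 1 := by field_simp
      rw [div_le_iff₀ hS, ← c2]
      exact mul_le_mul_of_nonneg_left (c1.trans (le_add_of_nonneg_right (by positivity)))
        (by positivity)
    generalize t ^ 2 + (1 / Q ^ 1000) ^ 2 = S at hS b1 b2 ⊢
    have b3 : (1 / x) ^ 2 ≤ 800 * (1 / S) := by
      rw [one_div_pow, mul_one_div, div_le_div_iff₀ (by positivity) hS]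
      linarith
    have b4 : Q ^ 8 / q ^ 4 ≤ Q ^ 22 / q ^ 3 :=
      div_le_div₀ (by positivity) (pow_le_pow_right₀ hQ (by norm_num)) (by positivity)
        (pow_le_pow_right₀ hq (by norm_num))
    calc _ = Q ^ 8 / q ^ 4 * ((1 / x) ^ 2 * (1 / x) ^ 2) := by ring
      _ ≤ Q ^ 22 / q ^ 3 * ((800 * (1 / S)) * (800 * Q ^ 1976)) :=
          mul_le_mul b4 (mul_le_mul b3 (b3.trans (by linarith)) (by positivity) (by positivity))
            (by positivity) (by positivity)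
      _ = _ := by ring
  · have hc' : Q ^ 12 ≤ q := (not_le.1 hc).le
    have b1 := sq_le_a hQ hy hθ' h1 h2
    generalize t ^ 2 + (1 / Q ^ 1000) ^ 2 = S at hS b1 ⊢
    have b3 : (1 / x) ^ 2 ≤ 65 * Q ^ 2 * (1 / S) := by
      rw [one_div_pow, mul_one_div, div_le_div_iff₀ (by positivity) hS]
      linarith
    have b2 : (1 / x) ^ 2 ≤ (Q ^ 1000) ^ 2 := by
      refine pow_le_pow_left₀ (by positivity) ?_ 2
      exact (one_div_le hx (by positivity)).2 h1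
    have b4 : Q ^ 8 / q ^ 4 ≤ Q ^ 8 / (Q ^ 12 * q ^ 3) := by
      refine div_le_div_of_nonneg_left (by positivity) (by positivity) ?_
      calc _ ≤ q * q ^ 3 := by gcongr
        _ = _ := by ring
    calc _ = Q ^ 8 / q ^ 4 * ((1 / x) ^ 2 * (1 / x) ^ 2) := by ring
      _ ≤ Q ^ 8 / (Q ^ 12 * q ^ 3) * ((65 * Q ^ 2 * (1 / S)) * (Q ^ 1000) ^ 2) :=
          mul_le_mul b4 (mul_le_mul b3 b2 (by positivity) (by positivity))
            (by positivity) (by positivity)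
      _ = 65 * (Q ^ 1998 / q ^ 3 / S) := by field_simp
      _ ≤ _ := mul_le_mul_of_nonneg_right (by norm_num) (by positivity)

theorem dual {Q q t θ x M : ℝ} (hQ : 1 ≤ Q) (hq : 1 ≤ q) (hθ : |θ| ≤ 7 * Q / Q ^ 1000)
    (ht : |t| ≤ 1 / (Q ^ 500 * q)) (hq2 : q ≤ Q ^ 500) (hM0 : 0 ≤ M) (hM : M ≤ Q * q)
    (hx0 : 0 ≤ x) (hx : x ≤ |t + θ| + 1 / Q ^ 1000) :
    M ^ 2 * x / (1 / Q ^ 1000) ≤ 9 * q * Q ^ 503 := by
  have a1 : 1 / Q ^ 1000 ≤ 1 / (Q ^ 500 * q) := by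
    refine one_div_le_one_div_of_le (by positivity) ?_
    calc _ ≤ Q ^ 500 * Q ^ 500 := by gcongr
      _ = _ := by ring
  have hu : 0 < 1 / (Q ^ 500 * q) := by positivity
  have a2 : |θ| ≤ 7 * (Q * (1 / (Q ^ 500 * q))) := by
    refine hθ.trans ?_
    rw [← mul_one_div, mul_assoc]
    gcongr
  have a3 : 1 / (Q ^ 500 * q) ≤ Q * (1 / (Q ^ 500 * q)) := le_mul_of_one_le_left hu.le hQ
  have a4 : x ≤ 9 * (Q * (1 / (Q ^ 500 * q))) := by
    have := abs_add_le t θ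
    linarith
  calc _ = M ^ 2 * x * Q ^ 1000 := by rw [div_div_eq_mul_div, div_one]
    _ ≤ (Q * q) ^ 2 * (9 * (Q * (1 / (Q ^ 500 * q)))) * Q ^ 1000 := by gcongr
    _ = _ := by field_simp

end PtP

open PtP GammaP in
theorem pPt : S_Pt := by
  obtain ⟨C1, hC1, h1⟩ := theta_diag
  refine ⟨C1 * (16 * 8 * 640000), by positivity, ?_⟩
  intro d φ Q x a θ hQ hd hdQ hφ hb hθ ht hq2 hn
  have hq1 : (1 : ℝ) ≤ a.den := by exact_mod_cast a.pos
  have hd0 : (0 : ℝ) ≤ d := Nat.cast_nonneg _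
  set z : Fin 4 → ℂ := fun j => ((x - a + θ j : ℝ) : ℂ) + (1 / Q ^ 1000 : ℝ) * I with hz
  have hzi : ∀ j, (z j).im = 1 / Q ^ 1000 := by
    intro j
    simp only [z, Complex.add_im, Complex.ofReal_im, Complex.mul_I_im, Complex.ofReal_re, zero_add]
  have hzr : ∀ j, (z j).re = x - a + θ j := by
    intro j
    simp only [z, Complex.add_re, Complex.ofReal_re, Complex.mul_I_re, Complex.ofReal_im, neg_zero,
      add_zero]
  have hy : (0 : ℝ) < 1 / Q ^ 1000 := by positivity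
  have hx1 : ∀ j, 1 / Q ^ 1000 ≤ ‖z j‖ := fun j =>
    (hzi j).symm.le.trans ((le_abs_self _).trans (Complex.abs_im_le_norm _))
  have hx2 : ∀ j, |x - a + θ j| ≤ ‖z j‖ := fun j => hzr j ▸ Complex.abs_re_le_norm _
  have hx3 : ∀ j, ‖z j‖ ≤ |x - a + θ j| + 1 / Q ^ 1000 := fun j => by
    have := Complex.norm_le_abs_re_add_abs_im (z j)
    rwa [hzr, hzi, abs_of_pos hy] at this
  have hcop : IsCoprime a.num (a.den : ℤ) := by
    rw [Int.isCoprime_iff_gcd_eq_one]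
    exact a.reduced
  have hf : ∀ k, ‖fhat (d * a.den) (fun v => φ v * ee ((a.num * nsq v : ℤ) / a.den)) k‖ ^ 2 ≤
      16 * (d : ℝ) ^ 8 / (a.den : ℝ) ^ 4 * ((d * a.den : ℕ) : ℝ) ^ 8 := by
    intro k
    refine (pow_le_pow_left₀ (norm_nonneg _) (norm_fhat_twist_le a.den_nz hd hφ hb hcop k) 2).trans
      (le_of_eq ?_)
    push_cast
    field_simp
    ring
  have h3 := h1 _ _ z _ (mul_ne_zero hd a.den_nz) (per_twist a.den_nz hφ a.num)
    (fun j => by rw [hzi]; exact hy) hf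
  refine h3.trans ?_
  simp_rw [hzi]
  obtain ⟨j0, hj0⟩ := Finite.exists_max fun j => 1 / ‖z j‖
  have hM : ((d * a.den : ℕ) : ℝ) ≤ Q * a.den := by
    push_cast
    gcongr
  have h4 : ∏ j, (1 / ‖z j‖ + ((d * a.den : ℕ) : ℝ) ^ 2 * ‖z j‖ / (1 / Q ^ 1000)) ≤
      8 * ((1 / ‖z j0‖) ^ 4 + (9 * a.den * Q ^ 503) ^ 4) := by
    calc _ ≤ ∏ _j : Fin 4, (1 / ‖z j0‖ + 9 * a.den * Q ^ 503) :=
          prod_le_prod (fun j _ => by positivity) fun j _ => add_le_add (hj0 j)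
            (dual hQ hq1 (hθ j) ht hq2 (Nat.cast_nonneg _) hM (norm_nonneg _) (hx3 j))
      _ = (1 / ‖z j0‖ + 9 * a.den * Q ^ 503) ^ 4 := by
          rw [prod_const, card_univ, Fintype.card_fin]
      _ ≤ _ := (add_pow_le (by positivity) (by positivity) 4).trans (le_of_eq (by norm_num))
  have h5 := key hQ hq1 (hθ j0) (hx1 j0) (hx2 j0) hn
  have h6 : Q ^ 8 / (a.den : ℝ) ^ 4 * (9 * a.den * Q ^ 503) ^ 4 ≤ 640000 * Q ^ 2500 := by
    calc _ = 6561 * Q ^ 2020 := by field_simp; norm_num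
      _ ≤ _ := mul_le_mul (by norm_num) (pow_le_pow_right₀ hQ (by norm_num)) (by positivity)
          (by norm_num)
  calc _ ≤ C1 * (16 * Q ^ 8 / (a.den : ℝ) ^ 4) *
        (8 * ((1 / ‖z j0‖) ^ 4 + (9 * a.den * Q ^ 503) ^ 4)) :=
        mul_le_mul (by gcongr) h4 (prod_nonneg fun j _ => by positivity) (by positivity)
    _ = C1 * (16 * 8) * (Q ^ 8 / (a.den : ℝ) ^ 4 * (9 * a.den * Q ^ 503) ^ 4 +
        Q ^ 8 / (a.den : ℝ) ^ 4 * (1 / ‖z j0‖) ^ 4) := by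
        generalize (9 * a.den * Q ^ 503 : ℝ) ^ 4 = u
        generalize (1 / ‖z j0‖) ^ 4 = w
        ring
    _ ≤ C1 * (16 * 8) * (640000 * Q ^ 2500 + 640000 *
        (Q ^ 1998 / (a.den : ℝ) ^ 3 / ((x - a) ^ 2 + (1 / Q ^ 1000) ^ 2))) :=
        mul_le_mul_of_nonneg_left (add_le_add h6 h5) (by positivity)
    _ = _ := by
        generalize Q ^ 1998 / (a.den : ℝ) ^ 3 / ((x - a) ^ 2 + (1 / Q ^ 1000) ^ 2) = u
        ring

end Pool.Agent.P.MP_0ad054_nt.BG
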