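import Pool.Agent.P.MP_0ad054_nt.BG.Defs
import Pool.Agent.P.MP_0ad054_nt.Sun.GammaB
import Pool.Agent.Lib.helper9.Cusp

/-! The zeroth terms of the two theta series cancel. -/

namespace Pool.Agent.P.MP_0ad054_nt.BG

open Finset MeasureTheory Complex Pool.Agent.Lib.H9 Pool.Agent.P.MP_0ad054_nt.Sun
  Pool.Agent.P.MP_0ad054_nt.Sun.SphereP

namespace SupP

theorem e_eq (x : ℝ) : e x = ee x := rfl

theorem comb {ν : Measure ℝ} [IsProbabilityMeasure ν] {A K P1 : ℂ} {T P : ℝ → ℂ} {B : ℝ}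
    (hT : Integrable T ν) (hP : Integrable P ν) (h : P1 = ∫ t, P t ∂ν)
    (h1 : ‖A - K * P1‖ ^ 2 ≤ B) (h2 : ∀ᵐ t ∂ν, ‖T t - K * P t‖ ^ 2 ≤ B) :
    ‖A - ∫ t, T t ∂ν‖ ^ 2 ≤ 4 * B := by
  have hB : 0 ≤ B := le_trans (by positivity) h1
  have a1 : ‖A - K * P1‖ ≤ √B := Real.le_sqrt_of_sq_le h1
  have a2 : ‖∫ t, (T t - K * P t) ∂ν‖ ≤ √B := by
    have := norm_integral_le_of_norm_le_const (μ := ν) (f := fun t => T t - K * P t) (C := √B)
      (h2.mono fun t ht => Real.le_sqrt_of_sq_le ht)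
    simpa using this
  rw [integral_sub hT (hP.const_mul K), integral_const_mul, ← h] at a2
  have a3 : ‖A - ∫ t, T t ∂ν‖ ≤ 2 * √B := by
    have e1 : A - ∫ t, T t ∂ν = (A - K * P1) - (∫ t, T t ∂ν - K * P1) := by ring
    rw [e1]
    exact (norm_sub_le _ _).trans (by linarith)
  calc _ ≤ (2 * √B) ^ 2 := by gcongr
    _ = _ := by rw [mul_pow, Real.sq_sqrt hB]; norm_num

theorem term1 (φ : (Fin 4 → ℤ) → ℂ) (x η y : ℝ) (a : ℚ) (v : Fin 4 → ℤ) :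
    φ v * e (η * (Q2 v : ℤ)) * ee (((x : ℂ) + (y : ℂ) * I) * nsq v) =
      φ v * ee ((a.num * nsq v : ℤ) / a.den) *
        ∏ j, ee ((((x - a + cc j * η : ℝ) : ℂ) + (y : ℂ) * I) * (v j : ℂ) ^ 2) := by
  rw [e_eq, ← ee_sum, mul_assoc, mul_assoc, ← ee_add, ← ee_add]
  congr 2
  have h : (a : ℂ) = a.num / a.den := by exact_mod_cast (Rat.num_div_den a).symm
  simp only [Fin.sum_univ_four, nsq, Q2, cc, Matrix.cons_val_zero, Matrix.cons_val_one,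
    Matrix.cons_val]
  push_cast
  rw [h]
  ring

theorem term2 (φ : (Fin 4 → ℤ) → ℂ) (x η y t : ℝ) (a : ℚ) (v : Fin 4 → ℤ) :
    φ v * e (η * (t * (nsq v : ℤ))) * ee (((x : ℂ) + (y : ℂ) * I) * nsq v) =
      φ v * ee ((a.num * nsq v : ℤ) / a.den) *
        ∏ j, ee ((((x - a + t * η : ℝ) : ℂ) + (y : ℂ) * I) * (v j : ℂ) ^ 2) := by
  rw [e_eq, ← ee_sum, mul_assoc, mul_assoc, ← ee_add, ← ee_add]
  congr 2
  have h : (a : ℂ) = a.num / a.den := by exact_mod_cast (Rat.num_div_den a).symm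
  simp only [Fin.sum_univ_four, nsq]
  push_cast
  rw [h]
  ring

theorem prod_four (w : ℂ) : ∏ _j : Fin 4, 1 / w ^ (1 / 2 : ℂ) = 1 / w ^ 2 := by
  have h : (w ^ (1 / 2 : ℂ)) ^ 2 = w := by rw [one_div, Complex.cpow_ofNat_inv_pow]
  rw [prod_const, card_univ, Fintype.card_fin, one_div_pow]
  congr 1
  calc _ = ((w ^ (1 / 2 : ℂ)) ^ 2) ^ 2 := by ring
    _ = _ := by rw [h]

theorem cont_e : Continuous e := by
  unfold e; fun_prop

theorem split {ν : Measure ℝ} [IsProbabilityMeasure ν] {φ : (Fin 4 → ℤ) → ℂ}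
    (hφ : ∀ v, ‖φ v‖ ≤ 1) (η : ℝ) {τ : ℂ} (hτ : 0 < τ.im) :
    Integrable (fun t : ℝ => ∑' v : Fin 4 → ℤ, φ v * e (η * (t * (nsq v : ℤ))) * ee (τ * nsq v)) ν ∧
    ∑' v : Fin 4 → ℤ, φ v * (e (η * (Q2 v : ℤ)) - sm ν η (nsq v)) * ee (τ * nsq v) =
      ∑' v : Fin 4 → ℤ, φ v * e (η * (Q2 v : ℤ)) * ee (τ * nsq v) -
        ∫ t : ℝ, ∑' v : Fin 4 → ℤ, φ v * e (η * (t * (nsq v : ℤ))) * ee (τ * nsq v) ∂ν := by
  have hs := summable_norm_ee_nsq hτ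
  have hb : ∀ (v : Fin 4 → ℤ) (s : ℝ), ‖φ v * e s * ee (τ * nsq v)‖ ≤ ‖ee (τ * nsq v)‖ := by
    intro v s
    rw [norm_mul, norm_mul, norm_e, mul_one]
    exact mul_le_of_le_one_left (norm_nonneg _) (hφ v)
  have hc : ∀ v : Fin 4 → ℤ,
      Continuous fun t : ℝ => φ v * e (η * (t * (nsq v : ℤ))) * ee (τ * nsq v) := fun v =>
    (continuous_const.mul (cont_e.comp (by fun_prop))).mul continuous_const
  have hi : ∀ v : Fin 4 → ℤ,
      Integrable (fun t : ℝ => φ v * e (η * (t * (nsq v : ℤ))) * ee (τ * nsq v)) ν := fun v =>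
    Integrable.of_bound (hc v).aestronglyMeasurable _
      (Filter.Eventually.of_forall fun t => hb v _)
  have hn : ∀ v : Fin 4 → ℤ,
      ∫ t : ℝ, ‖φ v * e (η * (t * (nsq v : ℤ))) * ee (τ * nsq v)‖ ∂ν ≤ ‖ee (τ * nsq v)‖ := by
    intro v
    have := integral_mono (hi v).norm (integrable_const (μ := ν) ‖ee (τ * nsq v)‖)
      (fun t => hb v _)
    simpa using this
  have hs2 : Summable fun v : Fin 4 → ℤ =>
      ∫ t : ℝ, ‖φ v * e (η * (t * (nsq v : ℤ))) * ee (τ * nsq v)‖ ∂ν :=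
    hs.of_nonneg_of_le (fun v => integral_nonneg fun _ => norm_nonneg _) hn
  refine ⟨Integrable.of_bound (continuous_tsum hc hs fun v t => hb v _).aestronglyMeasurable
    (∑' v : Fin 4 → ℤ, ‖ee (τ * nsq v)‖)
    (Filter.Eventually.of_forall fun t => tsum_of_norm_bounded hs.hasSum fun v => hb v _), ?_⟩
  rw [← integral_tsum_of_summable_integral_norm hi hs2, ← Summable.tsum_sub]
  · refine tsum_congr fun v => ?_
    rw [integral_mul_const, integral_const_mul]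
    unfold sm
    ring
  · exact Summable.of_norm_bounded hs fun v => hb v _
  · exact Summable.of_norm_bounded hs2 fun v => norm_integral_le_integral_norm _

theorem intP {ν : Measure ℝ} [IsProbabilityMeasure ν] {τ : ℂ} (hτ : 0 < τ.im) (η : ℝ) :
    Integrable (fun t : ℝ => 1 / (-2 * I * (τ + ((t * η : ℝ) : ℂ))) ^ 2) ν := by
  have hn : ∀ t : ℝ, τ.im ≤ ‖τ + ((t * η : ℝ) : ℂ)‖ := by
    intro t
    have := Complex.abs_im_le_norm (τ + ((t * η : ℝ) : ℂ))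
    rw [Complex.add_im, Complex.ofReal_im, add_zero] at this
    exact (le_abs_self _).trans this
  have hm : ∀ t : ℝ, ‖(-2 * I * (τ + ((t * η : ℝ) : ℂ))) ^ 2‖ =
      (2 * ‖τ + ((t * η : ℝ) : ℂ)‖) ^ 2 := by
    intro t
    rw [norm_pow, norm_mul, norm_mul, Complex.norm_I, norm_neg]
    simp
  refine Integrable.of_bound (Continuous.aestronglyMeasurable ?_) (1 / (2 * τ.im) ^ 2)
    (Filter.Eventually.of_forall fun t => ?_)
  · refine continuous_const.div (by fun_prop) fun t => ?_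
    rw [← norm_pos_iff, hm]
    have := hτ.trans_le (hn t)
    positivity
  · rw [norm_div, norm_one, hm]
    have := hn t
    gcongr

theorem core (h1 : S_Pois) : ∃ C : ℝ, 0 < C ∧ ∀ (M : ℕ) (ψ : (Fin 4 → ℤ) → ℂ) (Q s : ℝ)
    (θ : Fin 4 → ℝ), 1 ≤ Q → M ≠ 0 → (M : ℝ) ≤ Q ^ 13 → Per M ψ → (∀ v, ‖ψ v‖ ≤ 1) →
    (∀ j, |θ j| ≤ 7 * Q / Q ^ 1000) → |s| ≤ Q ^ 12 / Q ^ 1000 →
    ‖∑' v : Fin 4 → ℤ, ψ v *
      ∏ j, ee ((((s + θ j : ℝ) : ℂ) + ((1 / Q ^ 1000 : ℝ) : ℂ) * I) * (v j : ℂ) ^ 2) -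
      fhat M ψ 0 / (M : ℂ) ^ 4 * ∏ j, 1 / (-2 * I *
        (((s : ℂ) + ((1 / Q ^ 1000 : ℝ) : ℂ) * I) + ((θ j : ℝ) : ℂ))) ^ (1 / 2 : ℂ)‖ ^ 2 ≤
      C * Q ^ 2500 := by
  obtain ⟨C, hC, h⟩ := h1
  refine ⟨C * 162 ^ 4, by positivity, fun M ψ Q s θ hQ hM hMQ hper hψ hθ hs => ?_⟩
  set z : Fin 4 → ℂ := fun j => ((s + θ j : ℝ) : ℂ) + (1 / Q ^ 1000 : ℝ) * I with hz
  have hzi : ∀ j, (z j).im = 1 / Q ^ 1000 := by
    intro j
    simp only [z, Complex.add_im, Complex.ofReal_im, Complex.mul_I_im, Complex.ofReal_re, zero_add]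
  have hzr : ∀ j, (z j).re = s + θ j := by
    intro j
    simp only [z, Complex.add_re, Complex.ofReal_re, Complex.mul_I_re, Complex.ofReal_im, neg_zero,
      add_zero]
  have hy : (0 : ℝ) < 1 / Q ^ 1000 := by positivity
  have hx1 : ∀ j, 1 / Q ^ 1000 ≤ ‖z j‖ := fun j =>
    (hzi j).symm.le.trans ((le_abs_self _).trans (Complex.abs_im_le_norm _))
  have hx3 : ∀ j, ‖z j‖ ≤ 9 * Q ^ 12 / Q ^ 1000 := fun j => by
    have a1 := Complex.norm_le_abs_re_add_abs_im (z j)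
    rw [hzr, hzi, abs_of_pos hy] at a1
    have a2 := abs_add_le s (θ j)
    have a3 : Q ≤ Q ^ 12 := le_self_pow₀ hQ (by norm_num)
    have a4 : 7 * Q / Q ^ 1000 ≤ 7 * Q ^ 12 / Q ^ 1000 := by gcongr
    have a5 : 1 / Q ^ 1000 ≤ Q ^ 12 / Q ^ 1000 := by gcongr; exact one_le_pow₀ hQ
    have a6 : 9 * Q ^ 12 / Q ^ 1000 =
        Q ^ 12 / Q ^ 1000 + 7 * Q ^ 12 / Q ^ 1000 + Q ^ 12 / Q ^ 1000 := by ring
    linarith [hθ j]
  have hM0 : (0 : ℝ) < M := by exact_mod_cast Nat.pos_of_ne_zero hM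
  have h2 := h M ψ z (Q ^ 950 / 162) hM hper hψ (fun j => by rw [hzi]; exact hy) (by positivity)
    (fun j => by
      rw [hzi]
      have a1 := hy.trans_le (hx1 j)
      have a2 := hx3 j
      calc Q ^ 950 / 162 = 1 / Q ^ 1000 / (2 * (Q ^ 13) ^ 2 * (9 * Q ^ 12 / Q ^ 1000) ^ 2) := by
            field_simp; norm_num
        _ ≤ _ := by gcongr)
  have e1 : ∀ j, ((s : ℂ) + ((1 / Q ^ 1000 : ℝ) : ℂ) * I) + ((θ j : ℝ) : ℂ) = z j := by
    intro j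
    simp only [z]
    rw [Complex.ofReal_add]
    ring
  simp_rw [e1]
  refine h2.trans ?_
  have h3 : ∏ j, 1 / ‖z j‖ ≤ ∏ _j : Fin 4, Q ^ 1000 :=
    prod_le_prod (fun j _ => by positivity) fun j _ => by
      have := one_div_le_one_div_of_le hy (hx1 j)
      rwa [one_div_one_div] at this
  rw [prod_const, card_univ, Fintype.card_fin] at h3
  calc _ ≤ C / (Q ^ 950 / 162) ^ 4 * (Q ^ 1000) ^ 4 := by gcongr
    _ = C * 162 ^ 4 * Q ^ 200 := by field_simp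
    _ ≤ _ := by gcongr; norm_num

end SupP

open SupP in
theorem pSup (h1 : S_Pois) (h2 : S_Pt) : S_Sup := by
  obtain ⟨C1, hC1, h1⟩ := core h1
  obtain ⟨C2, hC2, h2⟩ := h2
  intro ν ⟨hν, hae, _, hid⟩
  refine ⟨4 * (C1 + C2), by positivity, fun d φ Q x η a hQ hd hdQ hper hφ hη hx hq => ?_⟩
  have hy : (0 : ℝ) < 1 / Q ^ 1000 := by positivity
  have him : ∀ s : ℝ, 0 < ((s : ℂ) + ((1 / Q ^ 1000 : ℝ) : ℂ) * I).im := by
    intro s
    simp only [Complex.add_im, Complex.ofReal_im, Complex.mul_I_im, Complex.ofReal_re, zero_add]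
    exact hy
  obtain ⟨hint, heq⟩ := split (ν := ν) hφ η (him x)
  rw [heq]
  simp_rw [term1 φ x η _ a]
  simp_rw [term2 φ x η _ _ a] at hint ⊢
  have hθ : ∀ c : ℝ, |c| ≤ 7 → |c * η| ≤ 7 * Q / Q ^ 1000 := by
    intro c hc
    rw [abs_mul, mul_div_assoc]
    exact mul_le_mul hc hη (abs_nonneg _) (by norm_num)
  have hae7 : ∀ᵐ t ∂ν, |t| ≤ 7 := hae.mono fun t ht => abs_le.2 ⟨by linarith [ht.1], ht.2⟩
  have hP := intP (ν := ν) (him (x - a)) η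
  have hI := hid _ η (him (x - a))
  set R := Q ^ 1998 / (a.den : ℝ) ^ 3 / ((x - a) ^ 2 + (1 / Q ^ 1000) ^ 2)
  have hR : 0 ≤ R := by positivity
  have hQ0 : 0 ≤ Q ^ 2500 := by positivity
  by_cases hc : (a.den : ℝ) ≤ Q ^ 12 ∧ |x - a| ≤ Q ^ 12 / Q ^ 1000
  · have hM : d * a.den ≠ 0 := mul_ne_zero hd a.den_nz
    have hMQ : ((d * a.den : ℕ) : ℝ) ≤ Q ^ 13 := by
      push_cast
      calc _ ≤ Q * Q ^ 12 := mul_le_mul hdQ hc.1 (by positivity) (by positivity)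
        _ = _ := by ring
    have hψ : ∀ v, ‖φ v * ee ((a.num * nsq v : ℤ) / a.den)‖ ≤ 1 := by
      intro v
      rw [norm_mul, norm_ee_div, mul_one]
      exact hφ v
    have h3 := fun θ hθ => h1 _ _ Q (x - a) θ hQ hM hMQ (per_twist a.den_nz hper a.num) hψ hθ hc.2
    refine (comb hint hP hI (h3 _ fun j => hθ _ (GammaP.cc_abs j)) (hae7.mono fun t ht => ?_)).trans
      ?_
    · have h4 := h3 (fun _ => t * η) fun _ => hθ _ ht
      rw [prod_four] at h4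
      exact h4
    · nlinarith [mul_nonneg hC1.le hR, mul_nonneg hC2.le hR, mul_nonneg hC2.le hQ0]
  · have h3 := fun θ hθ => h2 d φ Q x a θ hQ hd hdQ hper hφ hθ hx hq hc
    refine (comb (K := 0) (B := C2 * (Q ^ 2500 + R)) hint hP hI ?_
      (hae7.mono fun t ht => ?_)).trans ?_
    · rw [zero_mul, sub_zero]
      exact h3 _ fun j => hθ _ (GammaP.cc_abs j)
    · rw [zero_mul, sub_zero]
      exact h3 (fun _ => t * η) fun _ => hθ _ ht
    · nlinarith [mul_nonneg hC1.le hR, mul_nonneg hC1.le hQ0]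

end Pool.Agent.P.MP_0ad054_nt.BG
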