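import Pool.Agent.P.MP_0ad054_nt.BG.Defs
import Pool.Agent.P.MP_0ad054_nt.Sun.FinA

/-! Dense sets of primes are hit for almost all `n`. -/

namespace Pool.Agent.P.MP_0ad054_nt.BG

open Finset MeasureTheory Complex Pool.Agent.Lib.H9 Pool.Agent.P.MP_0ad054_nt.Sun
  Pool.Agent.P.MP_0ad054_nt.Sun.SphereP

namespace TP

theorem large (J : ℕ) : ∃ N0 : ℕ, ∀ N : ℕ, N0 ≤ N → 10 ≤ N ∧ 5 ≤ LL N ∧
    100 ≤ (N : ℝ) ^ (1 / 40000 : ℝ) ∧ LL N ^ J ≤ (N : ℝ) ^ (1 / 40000 : ℝ) := by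
  have h0 : Filter.Tendsto (fun N : ℕ => (N : ℝ)) Filter.atTop Filter.atTop :=
    tendsto_natCast_atTop_atTop
  have h1 : ∀ᶠ N : ℕ in Filter.atTop, 4 ≤ Real.log N :=
    (Real.tendsto_log_atTop.comp h0).eventually_ge_atTop 4
  have h2 : ∀ᶠ N : ℕ in Filter.atTop, 100 ≤ (N : ℝ) ^ (1 / 40000 : ℝ) :=
    ((tendsto_rpow_atTop (by norm_num)).comp h0).eventually_ge_atTop 100
  have h3 := h0.eventually ((isLittleO_log_rpow_rpow_atTop (J : ℝ)
    (s := 1 / 40000) (by norm_num)).bound (c := 1 / 2 ^ J) (by positivity))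
  obtain ⟨N0, h⟩ := Filter.eventually_atTop.1 (h1.and (h2.and (h3.and
    (Filter.eventually_ge_atTop 10))))
  refine ⟨N0, fun N hN => ?_⟩
  obtain ⟨a1, a2, a3, a4⟩ := h N hN
  refine ⟨a4, by unfold LL; linarith, a2, ?_⟩
  rw [Real.rpow_natCast, Real.norm_of_nonneg (by positivity),
    Real.norm_of_nonneg (by positivity)] at a3
  calc LL N ^ J ≤ (2 * Real.log N) ^ J := by unfold LL; gcongr; linarith
    _ = 2 ^ J * Real.log N ^ J := mul_pow _ _ _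
    _ ≤ 2 ^ J * (1 / 2 ^ J * (N : ℝ) ^ (1 / 40000 : ℝ)) := by gcongr
    _ = _ := by field_simp

theorem err {P N X Y D y R r : ℝ} (hP : 100 ≤ P) (hN : 0 < N) (hD0 : 0 < D) (hD : D ≤ P ^ 2)
    (hy : y ≤ P ^ 2) (hR1 : P ^ 10 / 4 ≤ R) (hR2 : R ≤ P ^ 10) (hX : 1 ≤ X)
    (hY : 1 ≤ Y) (hXY : X * Y ≤ P) (hr : N / X ≤ r) :
    y * R * (N ^ 2 / P ^ 20) + (1 / r * N + 1) * N ^ 2 / Real.sqrt R ≤ 5 * (N ^ 2 / D / Y) := by
  have hP1 : 1 ≤ P := by linarith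
  have hr0 : 0 < r := lt_of_lt_of_le (by positivity) hr
  have hR0 : 0 < R := lt_of_lt_of_le (by positivity) hR1
  have hYP : Y ≤ P := le_trans (le_mul_of_one_le_left (by positivity) hX) hXY
  have h1 : 1 / r * N + 1 ≤ 2 * X := by
    rw [div_le_iff₀ (by positivity)] at hr
    have : 1 / r * N ≤ X := by rw [one_div_mul_eq_div, div_le_iff₀ hr0]; linarith
    linarith
  have h2 : P ^ 5 / 2 ≤ Real.sqrt R := Real.le_sqrt_of_sq_le (by linarith)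
  have h3 : y * R * (N ^ 2 / P ^ 20) ≤ N ^ 2 / D / Y := by
    rw [div_div, le_div_iff₀ (by positivity)]
    calc _ ≤ P ^ 2 * P ^ 10 * (N ^ 2 / P ^ 20) * (P ^ 2 * P) := by gcongr
      _ = N ^ 2 / P ^ 5 := by field_simp
      _ ≤ _ := div_le_self (by positivity) (one_le_pow₀ hP1)
  have h4 : (1 / r * N + 1) * N ^ 2 / Real.sqrt R ≤ 4 * (N ^ 2 / D / Y) := by
    rw [div_div, ← mul_div_assoc, le_div_iff₀ (by positivity)]
    calc _ ≤ 2 * X * N ^ 2 / (P ^ 5 / 2) * (P ^ 2 * Y) := by gcongr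
      _ = 4 * N ^ 2 * (X * Y) / P ^ 3 := by field_simp; ring
      _ ≤ 4 * N ^ 2 * P ^ 3 / P ^ 3 := by
          gcongr; exact hXY.trans (le_self_pow₀ hP1 (by norm_num))
      _ = _ := by field_simp
  linarith

theorem fin {P N Y D e s Z C1 C2 C3 : ℝ} (hP : 1 ≤ P) (hN : 0 < N) (hD0 : 0 < D) (hD : D ≤ P ^ 2)
    (hY : 0 < Y) (hYP : Y ≤ P) (he : e ≤ 2 * N) (he0 : 0 ≤ e) (hs0 : 0 ≤ s) (hs : s ≤ 2 * N)
    (hC2 : 0 ≤ C2) (h1 : e * (N / (4 * D) - C2 * D ^ 9 * (N / P ^ 1000)) ≤ Z)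
    (h2 : s / (10000 * N) * Z - C3 * (5 * (N ^ 2 / D / Y)) ≤ C1 * (N ^ 2 / D) / Y) :
    s * e ≤ 40000 * (C1 + 5 * C3 + C2) * (N ^ 2 / Y) := by
  have h3 : s / (10000 * N) * (e * (C2 * D ^ 9 * (N / P ^ 1000))) ≤ C2 * (N ^ 2 / D / Y) := by
    rw [div_div, ← mul_div_assoc C2 (N ^ 2), le_div_iff₀ (by positivity)]
    calc _ ≤ 2 * N / (10000 * N) * (2 * N * (C2 * (P ^ 2) ^ 9 * (N / P ^ 1000))) * (P ^ 2 * P) := by
          gcongr
      _ = C2 * N ^ 2 / (2500 * P ^ 979) := by field_simp; ring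
      _ ≤ _ := div_le_self (by positivity) (by nlinarith [one_le_pow₀ (n := 979) hP])
  have h4 := mul_le_mul_of_nonneg_left h1 (show 0 ≤ s / (10000 * N) by positivity)
  have h5 : s / (10000 * N) * (e * (N / (4 * D))) = s * e / (40000 * D) := by field_simp; ring
  rw [mul_sub, mul_sub, h5] at h4
  have h6 : s * e / (40000 * D) ≤ (C1 + 5 * C3 + C2) * (N ^ 2 / D / Y) := by
    have : C1 * (N ^ 2 / D) / Y = C1 * (N ^ 2 / D / Y) := by ring
    linarith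
  rw [div_le_iff₀ (by positivity)] at h6
  refine h6.trans (le_of_eq ?_)
  field_simp

end TP

open TP in
theorem pT (h1 : Clu.S_Core) (h2 : Clu.S_Prim) (h3 : Clu.S_Om) (h4 : S_Lip) (h5 : S_Wt) :
    S_T := by
  classical
  obtain ⟨W, cl, hW, h2W, hcl, hcore⟩ := h1
  obtain ⟨C2, hC2, h2⟩ := h2
  obtain ⟨C3, hC3, h4⟩ := h4
  refine ⟨W, cl, hW, h2W, fun n0 h => (hcl n0 h).of_mul_left_left, fun k0 A => ?_⟩
  obtain ⟨B, C1, N1, hC1, hjB, hc⟩ := hcore (k0 + A + 1) (1 / 20000) (by norm_num)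
  obtain ⟨N2, hN2⟩ := large (B + 1 + (k0 + A + 1))
  refine ⟨40000 * (C1 + 5 * C3 + C2) + 1, max N1 N2, by positivity,
    fun N hN n0 S E hn0 hS hcard hE => ?_⟩
  obtain ⟨D, y, hG, hD, hne, hy1, hy2, hc⟩ := hc N (le_of_max_le_left hN)
  obtain ⟨hN10, hL, hP, hLP⟩ := hN2 N (le_of_max_le_right hN)
  have hN1 : (10 : ℝ) ≤ N := by exact_mod_cast hN10
  have hN0 : (0 : ℝ) < N := by linarith
  have hD0 : (0 : ℝ) < D := by exact_mod_cast Nat.pos_of_ne_zero hG.1.ne_zero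
  have hpow : ∀ (k : ℕ) (c : ℝ), 1 / 40000 * (k : ℝ) = c →
      (N : ℝ) ^ c = ((N : ℝ) ^ (1 / 40000 : ℝ)) ^ k := fun k c h => by
    rw [← Real.rpow_natCast, ← Real.rpow_mul hN0.le, h]
  have e2 := hpow 2 (1 / 20000) (by norm_num)
  have e40 := hpow 40 (1 / 1000) (by norm_num)
  have eN := hpow 40000 1 (by norm_num)
  have e20 : (N : ℝ) ^ (2 - 1 / 2000 : ℝ) = N ^ 2 / ((N : ℝ) ^ (1 / 40000 : ℝ)) ^ 20 := by
    rw [Real.rpow_sub hN0, hpow 20 (1 / 2000) (by norm_num), Real.rpow_two]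
  have e39 : (N : ℝ) ^ (39 / 40 : ℝ) = N / ((N : ℝ) ^ (1 / 40000 : ℝ)) ^ 1000 := by
    rw [← hpow 1000 (1 / 40) (by norm_num), show (39 / 40 : ℝ) = 1 - 1 / 40 by norm_num,
      Real.rpow_sub hN0, Real.rpow_one]
  rw [Real.rpow_one] at eN
  rw [e2] at hD hy2
  clear hcore hN2 hpow
  generalize (N : ℝ) ^ (1 / 40000 : ℝ) = P at *
  set L := LL N
  have hP1 : 1 ≤ P := by linarith
  have hL1 : 1 ≤ L := by linarith
  have hPN : ∀ k : ℕ, k ≤ 40000 → P ^ k ≤ N := fun k hk => eN ▸ pow_le_pow_right₀ hP1 hk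
  clear eN e2
  have hXY : L ^ (B + 1) * L ^ (k0 + A + 1) ≤ P := by rwa [← pow_add]
  have hX : 1 ≤ L ^ (B + 1) := one_le_pow₀ hL1
  have hY : 1 ≤ L ^ (k0 + A + 1) := one_le_pow₀ hL1
  have hYP : L ^ (k0 + A + 1) ≤ P := le_trans (le_mul_of_one_le_left (by positivity) hX) hXY
  have hXP : L ^ (B + 1) ≤ P := le_trans (le_mul_of_one_le_right (by positivity) hY) hXY
  set r := ⌊N / L ^ B⌋₊
  have hr2 : (r : ℝ) ≤ N / L ^ B := Nat.floor_le (by positivity)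
  have hq1 : 1 ≤ N / L ^ (B + 1) := by
    rw [le_div_iff₀ (by positivity), one_mul]
    exact hXP.trans ((pow_one P).symm.le.trans (hPN 1 (by norm_num)))
  have hr1 : N / L ^ (B + 1) ≤ r := by
    have a1 := Nat.lt_floor_add_one (N / L ^ B)
    have a2 : N / L ^ B = L * (N / L ^ (B + 1)) := by field_simp; ring
    nlinarith
  have hr0 : 1 ≤ r := by exact_mod_cast hq1.trans hr1
  have hr5 : 5 * r ≤ N := by
    have a1 : L ≤ L ^ B := le_self_pow₀ hL1 (by omega)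
    have a2 : (N : ℝ) / L ^ B ≤ N / 5 := by gcongr; linarith
    have : (5 * r : ℝ) ≤ N := by linarith
    exact_mod_cast this
  set R := ⌊P ^ 10⌋₊
  have hR2 : (R : ℝ) ≤ P ^ 10 := Nat.floor_le (by positivity)
  have hP10 : 100 ≤ P ^ 10 := hP.trans (le_self_pow₀ hP1 (by norm_num))
  have hR1 : P ^ 10 / 4 ≤ R := by linarith [Nat.lt_floor_add_one (P ^ 10)]
  have hR0 : 50 ≤ R := Nat.le_floor (by push_cast; linarith)
  have hyN : y ≤ N := by exact_mod_cast hy2.trans (hPN 2 (by norm_num))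
  have hy0 : 1 ≤ y := by exact_mod_cast hY.trans hy1
  set E1 := E.filter (fun n => ∀ d : ℕ, y < d → ¬ d ^ 2 ∣ n)
  have hE2 : ((E.filter (fun n => ¬ ∀ d : ℕ, y < d → ¬ d ^ 2 ∣ n)).card : ℝ) ≤ N / y := by
    refine FinP.card_sq_dvd N y hy0 _ fun n hn => ?_
    obtain ⟨a1, a2⟩ := mem_filter.1 hn
    push Not at a2
    obtain ⟨d, b1, b2⟩ := a2
    obtain ⟨a3, a4, -⟩ := hE n a1
    have := Nat.le_of_dvd (by omega) b2
    exact ⟨by omega, a4, d, mem_Ioc.2 ⟨b1, by nlinarith⟩, b2⟩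
  have hc := hc n0 r S E1 hn0 hr1 hr2
    (fun t ht => by obtain ⟨a1, a2, a3, a4⟩ := hS t ht; exact ⟨a1, by omega, by omega, a4⟩)
    (fun n hn => by
      obtain ⟨a0, a5⟩ := mem_filter.1 hn
      obtain ⟨a1, a2, a3, a4⟩ := hE n a0
      exact ⟨by omega, a2, a3, a5, a4⟩)
  obtain ⟨δ, hδ, hc⟩ := exists_le_of_sum_le (g := fun _ => C1 * ((N : ℝ) ^ 2 / D) /
    L ^ (k0 + A + 1)) hne (hc.trans (le_of_eq (by rw [sum_const, nsmul_eq_mul]; ring)))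
  obtain ⟨w1, w2, w3⟩ := h5 r hr0
  have h6 := h4 N D y R δ E1 (fun m => ∑ t ∈ S, Clu.om r (m - t)) (1 / r) hG.1.ne_zero
    (by
      rw [e40]; push_cast
      calc _ ≤ P ^ 2 * P ^ 2 := by gcongr
        _ = P ^ 4 := by ring
        _ ≤ _ := pow_le_pow_right₀ hP1 (by norm_num)) hR0
    (by rw [e40]; exact hR2.trans (pow_le_pow_right₀ hP1 (by norm_num)))
    (fun n hn => by
      obtain ⟨a0, a5⟩ := mem_filter.1 hn
      exact ⟨(hE n a0).1, (hE n a0).2.1, a5⟩)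
    (fun m => ⟨sum_nonneg fun t _ => h3.1 _ _, h3.2.1 r S m, w1 S m⟩)
    (fun m hm => by
      obtain ⟨t, ht, h⟩ := exists_ne_zero_of_sum_ne_zero hm
      have a1 := abs_lt.1 (w2 _ h)
      obtain ⟨-, a2, a3, -⟩ := hS t ht
      omega)
  have h7 : ∑ m ∈ Icc (0 : ℤ) (4 * N), ∑ t ∈ S, Clu.om r (m - t) = S.card := by
    rw [sum_comm, sum_congr rfl fun (t : ℕ) ht => w3 0 (4 * N) t
      (by obtain ⟨-, a2, -⟩ := hS t ht; omega) (by obtain ⟨-, -, a3, -⟩ := hS t ht; omega)]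
    simp
  rw [h7, e20] at h6
  have h8 := err hP hN0 hD0 hD hy2 hR1 hR2 hX hY hXY hr1
  have h9 : (E1.card : ℝ) * (N / (4 * D) - C2 * D ^ 9 * (N / P ^ 1000)) ≤
      ∑ n ∈ E1, ((pl D δ n).card : ℝ) := by
    rw [← nsmul_eq_mul]
    refine card_nsmul_le_sum _ _ _ fun n hn => ?_
    obtain ⟨a1, a2, a3, -⟩ := hE n (mem_filter.1 hn).1
    have a4 : Odd n := by
      have b1 : (2 : ℤ) ∣ n - n0 := (Int.natCast_dvd_natCast.2 h2W).trans a3
      obtain ⟨c, rfl⟩ := hn0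
      exact ⟨n / 2, by omega⟩
    refine le_trans ?_ (h2 D n δ hG hδ a4)
    have b1 : (N : ℝ) ≤ 2 * n := by exact_mod_cast a1
    have b2 : (n : ℝ) ^ (39 / 40 : ℝ) ≤ N / P ^ 1000 := by
      rw [← e39]; gcongr
    have b3 : (N : ℝ) / (4 * D) ≤ n / (2 * D) := by
      rw [div_le_div_iff₀ (by positivity) (by positivity)]; nlinarith
    gcongr
  have hEc : (E1.card : ℝ) ≤ 2 * N := by
    have := card_le_card (t := range (N + 1)) fun n (hn : n ∈ E1) =>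
      mem_range.2 (Nat.lt_succ_of_le (hE n (mem_filter.1 hn).1).2.1)
    rw [card_range] at this
    exact_mod_cast (by omega : E1.card ≤ 2 * N)
  have hSc : (S.card : ℝ) ≤ 2 * N := by
    have := card_le_card (t := Icc (2 * N) (3 * N)) fun t (ht : t ∈ S) =>
      mem_Icc.2 ⟨(hS t ht).2.1, (hS t ht).2.2.1⟩
    rw [Nat.card_Icc] at this
    exact_mod_cast (by omega : S.card ≤ 2 * N)
  have h10 := fin (C1 := C1) (C3 := C3) hP1 hN0 hD0 hD (by positivity) hYP hEc (Nat.cast_nonneg _)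
    (Nat.cast_nonneg _) hSc hC2.le h9
    (le_trans (by gcongr) (h6.trans hc))
  have h11 : (E1.card : ℝ) ≤ 40000 * (C1 + 5 * C3 + C2) * (N / L ^ A) := by
    have a1 : N / L ^ k0 * (E1.card : ℝ) ≤
        N / L ^ k0 * (40000 * (C1 + 5 * C3 + C2) * (N / L ^ (A + 1))) :=
      le_trans (by gcongr) (h10.trans (le_of_eq (by field_simp; ring)))
    refine (le_of_mul_le_mul_left a1 (by positivity)).trans ?_
    gcongr
    omega
  have h12 : (N : ℝ) / y ≤ N / L ^ A := by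
    gcongr
    exact le_trans (pow_le_pow_right₀ hL1 (by omega)) hy1
  have h13 := card_filter_add_card_filter_not (s := E) (fun n => ∀ d : ℕ, y < d → ¬ d ^ 2 ∣ n)
  have h14 : (E.card : ℝ) = E1.card +
      ((E.filter (fun n => ¬ ∀ d : ℕ, y < d → ¬ d ^ 2 ∣ n)).card : ℝ) := by
    exact_mod_cast h13.symm
  rw [h14, mul_div_assoc]
  linarith

end Pool.Agent.P.MP_0ad054_nt.BG
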