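import Pool.Agent.P.MP_0ad054_nt.BG.Feyn
import Pool.Agent.P.MP_0ad054_nt.BG.Pois
import Pool.Agent.P.MP_0ad054_nt.BG.Pt
import Pool.Agent.P.MP_0ad054_nt.BG.Sup
import Pool.Agent.P.MP_0ad054_nt.BG.Ang
import Pool.Agent.P.MP_0ad054_nt.BG.AngP
import Pool.Agent.P.MP_0ad054_nt.BG.Fej
import Pool.Agent.P.MP_0ad054_nt.BG.Kb
import Pool.Agent.P.MP_0ad054_nt.BG.Lip
import Pool.Agent.P.MP_0ad054_nt.BG.T
import Pool.Agent.P.MP_0ad054_nt.BG.Ramsey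
import Pool.Agent.P.MP_0ad054_nt.BG.Dense
import Pool.Agent.P.MP_0ad054_nt.BG.Fin
import Pool.Agent.P.MP_0ad054_nt.MW.All
import Pool.Agent.P.MP_0ad054_nt.Clu.All

/-! Assembly of the parts. -/

namespace Pool.Agent.P.MP_0ad054_nt.BG

theorem two_all : S_Two := by
  obtain ⟨k, K, hk, h⟩ := MW.mayN 1
  refine ⟨k, K, hk, fun a b v hN => ?_⟩
  obtain ⟨j, h⟩ := h a b v hN
  obtain ⟨N0, h⟩ := h 1
  exact ⟨j, N0, fun N hN x X h1 h2 h3 =>
    h N hN x X (by rwa [pow_one]) (by rwa [pow_one]) (by omega)⟩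

theorem lip_all : S_Lip := pLip pFeyn (pAngP (pAng (pSup pPois pPt))) pFej (pKb pFej)

theorem t_all : S_T := pT Clu.core_all Clu.pPrim Clu.pOm lip_all pWt

theorem main_all : S_Main := pFin t_all (pDense two_all) pRamsey

end Pool.Agent.P.MP_0ad054_nt.BG
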