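import Pool.Agent.P.MP_0ad054_nt.Clu.Defs
import Pool.Agent.P.MP_746f10_nt.Sys

/-! Dense sets of primes as values of `x^2+3y^2+5z^2+7w^2` on spheres: definitions and the
statements of the parts of the proof. -/

namespace Pool.Agent.P.MP_0ad054_nt.BG

open Finset MeasureTheory Complex Pool.Agent.Lib.H9 Pool.Agent.P.MP_0ad054_nt.Sun
  Pool.Agent.P.MP_0ad054_nt.Sun.SphereP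

/-! ### angular equidistribution -/

/-- the law of `Q2 x / nsq x` -/
def IsNu (ν : Measure ℝ) : Prop :=
  IsProbabilityMeasure ν ∧ (∀ᵐ t ∂ν, 1 ≤ t ∧ t ≤ 7) ∧
  (∀ a b : ℝ, 3 / 2 ≤ a → a ≤ b → b ≤ 13 / 2 → (b - a) / 300 ≤ ν.real (Set.Icc a b)) ∧
  ∀ (τ : ℂ) (η : ℝ), 0 < τ.im →
    ∏ j : Fin 4, 1 / (-2 * I * (τ + ((cc j * η : ℝ) : ℂ))) ^ (1 / 2 : ℂ) =
      ∫ t : ℝ, 1 / (-2 * I * (τ + ((t * η : ℝ) : ℂ))) ^ 2 ∂ν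

def S_Feyn : Prop := ∃ ν : Measure ℝ, IsNu ν

/-- the theta series is close to the zeroth term of the dual series -/
def S_Pois : Prop :=
  ∃ C : ℝ, 0 < C ∧ ∀ (M : ℕ) (φ : (Fin 4 → ℤ) → ℂ) (z : Fin 4 → ℂ) (t0 : ℝ), M ≠ 0 → Per M φ →
    (∀ v, ‖φ v‖ ≤ 1) → (∀ j, 0 < (z j).im) → 0 < t0 →
    (∀ j, t0 ≤ (z j).im / (2 * (M : ℝ) ^ 2 * ‖z j‖ ^ 2)) →
    ‖∑' v : Fin 4 → ℤ, φ v * ∏ j, ee (z j * (v j : ℂ) ^ 2) -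
      fhat M φ 0 / (M : ℂ) ^ 4 * ∏ j, 1 / (-2 * I * z j) ^ (1 / 2 : ℂ)‖ ^ 2 ≤
      C / t0 ^ 4 * ∏ j, 1 / ‖z j‖

/-- the theta series away from the centres of the major arcs -/
def S_Pt : Prop :=
  ∃ C : ℝ, 0 < C ∧ ∀ (d : ℕ) (φ : (Fin 4 → ℤ) → ℂ) (Q x : ℝ) (a : ℚ) (θ : Fin 4 → ℝ), 1 ≤ Q →
    d ≠ 0 → (d : ℝ) ≤ Q → Per d φ → (∀ v, ‖φ v‖ ≤ 1) → (∀ j, |θ j| ≤ 7 * Q / Q ^ 1000) →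
    |x - a| ≤ 1 / (Q ^ 500 * a.den) → (a.den : ℝ) ≤ Q ^ 500 →
    ¬ ((a.den : ℝ) ≤ Q ^ 12 ∧ |x - a| ≤ Q ^ 12 / Q ^ 1000) →
    ‖∑' v : Fin 4 → ℤ, φ v * ee ((a.num * nsq v : ℤ) / a.den) *
      ∏ j, ee ((((x - a + θ j : ℝ) : ℂ) + ((1 / Q ^ 1000 : ℝ) : ℂ) * I) * (v j : ℂ) ^ 2)‖ ^ 2 ≤
      C * (Q ^ 2500 + Q ^ 1998 / (a.den : ℝ) ^ 3 / ((x - a) ^ 2 + (1 / Q ^ 1000) ^ 2))

/-- the spherical mean of `e (η Q2)` on the sphere of squared radius `n` -/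
noncomputable def sm (ν : Measure ℝ) (η : ℝ) (n : ℤ) : ℂ := ∫ t : ℝ, e (η * (t * n)) ∂ν

/-- the generating series is small: the zeroth terms cancel -/
def S_Sup : Prop :=
  ∀ ν : Measure ℝ, IsNu ν → ∃ C : ℝ, 0 < C ∧ ∀ (d : ℕ) (φ : (Fin 4 → ℤ) → ℂ) (Q x η : ℝ) (a : ℚ),
    1 ≤ Q → d ≠ 0 → (d : ℝ) ≤ Q → Per d φ → (∀ v, ‖φ v‖ ≤ 1) → |η| ≤ Q / Q ^ 1000 →
    |x - a| ≤ 1 / (Q ^ 500 * a.den) → (a.den : ℝ) ≤ Q ^ 500 →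
    ‖∑' v : Fin 4 → ℤ, φ v * (e (η * (Q2 v : ℤ)) - sm ν η (nsq v)) *
      ee (((x : ℂ) + ((1 / Q ^ 1000 : ℝ) : ℂ) * I) * nsq v)‖ ^ 2 ≤
      C * (Q ^ 2500 + Q ^ 1998 / (a.den : ℝ) ^ 3 / ((x - a) ^ 2 + (1 / Q ^ 1000) ^ 2))

/-- angular equidistribution on average -/
def S_Ang : Prop :=
  ∀ ν : Measure ℝ, IsNu ν → ∃ C : ℝ, 0 < C ∧ ∀ (N d : ℕ) (φ : (Fin 4 → ℤ) → ℂ) (η : ℝ), 1 ≤ N →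
    d ≠ 0 → (d : ℝ) ≤ (N : ℝ) ^ (1 / 1000 : ℝ) → Per d φ → (∀ v, ‖φ v‖ ≤ 1) →
    |η| ≤ (N : ℝ) ^ (1 / 1000 : ℝ) / N →
    ∑ n ∈ Icc (0 : ℤ) N, ‖∑ v ∈ sphere n, φ v * (e (η * (Q2 v : ℤ)) - sm ν η n)‖ ^ 2 ≤
      C * (N : ℝ) ^ (3 - 1 / 1000 : ℝ)

/-- primitive points of the sublattice on a sphere -/
noncomputable def pl (D : ℕ) (δ : ℤ × ℤ) (n : ℤ) : Finset (Fin 4 → ℤ) :=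
  (psphere n).filter (fun v => (D : ℤ) ∣ δ.1 * v 2 - δ.2 * v 1)

/-- angular equidistribution of primitive points -/
def S_AngP : Prop :=
  ∀ ν : Measure ℝ, IsNu ν → ∃ C : ℝ, 0 < C ∧ ∀ (N D y : ℕ) (δ : ℤ × ℤ) (E : Finset ℕ) (η : ℝ),
    1 ≤ N → D ≠ 0 → ((D * y : ℕ) : ℝ) ≤ (N : ℝ) ^ (1 / 1000 : ℝ) →
    |η| ≤ (N : ℝ) ^ (1 / 1000 : ℝ) / N → (∀ n ∈ E, n ≤ N ∧ ∀ d : ℕ, y < d → ¬ d ^ 2 ∣ n) →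
    ‖∑ n ∈ E, ∑ v ∈ pl D δ n, (e (η * (Q2 v : ℤ)) - sm ν η n)‖ ≤
      C * y * (N : ℝ) ^ (2 - 1 / 2000 : ℝ)

/-- the Fejer kernel -/
noncomputable def fej (M R : ℕ) (s : ℝ) : ℝ :=
  ‖∑ r ∈ range R, e (r * s / M)‖ ^ 2 / (M * R)

def S_Fej : Prop :=
  ∀ M R : ℕ, 1 ≤ R → R ≤ M →
    (∀ s : ℝ, (fej M R s : ℂ) =
      1 / (M * R) * ∑ r ∈ range R, ∑ r' ∈ range R, e (((r : ℝ) - r') / M * s)) ∧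
    (∀ (x : ℝ) (a : ℤ), ∑ m ∈ Ico a (a + M), fej M R (x - m) = 1) ∧
    (∀ s : ℝ, |s| ≤ M / (16 * R) → R / (4 * M) ≤ fej M R s) ∧
    ∀ (S : Finset ℤ) (t : ℝ), 1 ≤ t → (∀ s ∈ S, t ≤ |(s : ℝ)| ∧ 2 * |(s : ℝ)| ≤ M) →
      ∑ s ∈ S, fej M R s ≤ M / (R * t)

/-- the spherical mean of the Fejer kernel is bounded below -/
def S_Kb : Prop :=
  ∀ ν : Measure ℝ, IsNu ν → ∀ (N R n : ℕ) (m : ℤ), 50 ≤ R → R ≤ N → N ≤ 2 * n → n ≤ N →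
    31 * (N : ℤ) ≤ 20 * m → 5 * m ≤ 16 * (N : ℤ) →
    1 / (10000 * (N : ℝ)) ≤ ∫ t : ℝ, fej (20 * N) R (t * n - m) ∂ν

/-- the triangle weight -/
def S_Wt : Prop :=
  ∀ r : ℕ, 1 ≤ r →
    (∀ (S : Finset ℕ) (m : ℤ),
      |∑ t ∈ S, Clu.om r (m + 1 - t) - ∑ t ∈ S, Clu.om r (m - t)| ≤ 1 / (r : ℝ)) ∧
    (∀ d : ℤ, Clu.om r d ≠ 0 → |d| < r) ∧
    ∀ a b t : ℤ, a + r ≤ t → t + r ≤ b → ∑ m ∈ Icc a b, Clu.om r (m - t) = 1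

/-- slowly varying weights -/
def S_Lip : Prop :=
  ∃ C : ℝ, 0 < C ∧ ∀ (N D y R : ℕ) (δ : ℤ × ℤ) (E : Finset ℕ) (w : ℤ → ℝ) (Λ : ℝ), D ≠ 0 →
    ((D * y : ℕ) : ℝ) ≤ (N : ℝ) ^ (1 / 1000 : ℝ) → 50 ≤ R → (R : ℝ) ≤ (N : ℝ) ^ (1 / 1000 : ℝ) →
    (∀ n ∈ E, N ≤ 2 * n ∧ n ≤ N ∧ ∀ d : ℕ, y < d → ¬ d ^ 2 ∣ n) →
    (∀ m, 0 ≤ w m ∧ w m ≤ 1 ∧ |w (m + 1) - w m| ≤ Λ) →
    (∀ m, w m ≠ 0 → 31 * (N : ℤ) ≤ 20 * m ∧ 5 * m ≤ 16 * (N : ℤ)) →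
    (∑ m ∈ Icc (0 : ℤ) (4 * N), w m) / (10000 * N) * ∑ n ∈ E, ((pl D δ n).card : ℝ) -
      C * (y * R * (N : ℝ) ^ (2 - 1 / 2000 : ℝ) + (Λ * N + 1) * (N : ℝ) ^ 2 / Real.sqrt R) ≤
      ∑ n ∈ E, ∑ v ∈ pl D δ n, w (Q2 v)

/-! ### the main statements -/

/-- every dense set of primes in the right class is hit for almost all `n` -/
def S_T : Prop :=
  ∃ (W : ℕ) (cl : ℤ → ℤ), 0 < W ∧ 2 ∣ W ∧ (∀ n0, Odd n0 → IsCoprime (cl n0) W) ∧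
    ∀ k0 A : ℕ, ∃ (C : ℝ) (N0 : ℕ), 0 < C ∧ ∀ N : ℕ, N0 ≤ N → ∀ (n0 : ℤ) (S E : Finset ℕ),
    Odd n0 → (∀ t ∈ S, t.Prime ∧ 2 * N ≤ t ∧ t ≤ 3 * N ∧ (W : ℤ) ∣ t - cl n0) →
    N / LL N ^ k0 ≤ S.card →
    (∀ n ∈ E, N ≤ 2 * n ∧ n ≤ N ∧ (W : ℤ) ∣ n - n0 ∧ ¬ Clu.RepS S n) →
    (E.card : ℝ) ≤ C * N / LL N ^ A

/-- two primes among the values of a normalised system, for many `n` -/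
def S_Two : Prop :=
  ∃ k K : ℕ, 0 < k ∧ ∀ (a b : Fin k → ℕ) (v : ℕ), Pool.Agent.P.MP_746f10_nt.Nrm a b K v →
    ∃ j N0 : ℕ, ∀ N : ℕ, N0 ≤ N → ∀ x X : ℕ, N / LL N ≤ X → N / LL N ≤ x → x + X ≤ 8 * N →
      X / LL N ^ j ≤ ((Ico x (x + X)).filter (fun n =>
        1 < (univ.filter (fun l => (a l * n + b l).Prime)).card)).card

/-- admissible sets of shifts -/
def AdmS (H : Finset ℕ) : Prop := ∀ p : ℕ, p.Prime → ∃ t : ℕ, ∀ h ∈ H, ¬ p ∣ t + h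

/-- primes `p` in the range and the class with `p - h` prime -/
noncomputable def pairs (W N : ℕ) (b : ℤ) (h : ℕ) : Finset ℕ :=
  (Icc (2 * N) (3 * N)).filter (fun p => p.Prime ∧ (W : ℤ) ∣ p - b ∧ (p - h).Prime)

/-- many prime pairs in a given class -/
def S_Dense : Prop :=
  ∃ K : ℕ, ∀ (W : ℕ) (S : Finset ℕ) (b : ℤ), 0 < W → S.card = K → AdmS S →
    (∀ h ∈ S, ∀ h' ∈ S, h ≡ h' [MOD W]) → IsCoprime b W → ∃ k0 N0 : ℕ, ∀ N : ℕ, N0 ≤ N →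
      ∃ h ∈ S, ∃ h' ∈ S, h < h' ∧ N / LL N ^ k0 ≤ (pairs W N b (h' - h)).card

def S_Ramsey : Prop :=
  ∀ (κ : Type) [Fintype κ] (K : ℕ), ∃ R : ℕ, ∀ (S : Finset ℕ) (col : ℕ → ℕ → κ), R ≤ S.card →
    ∃ S' ⊆ S, S'.card = K ∧ ∃ i, ∀ x ∈ S', ∀ y ∈ S', x < y → col x y = i

/-- the final statement -/
def S_Main : Prop :=
  ∀ ε : ℝ, 0 < ε → ∃ k : ℕ, ∀ H : Finset ℕ, k ≤ H.card →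
    (∀ p : ℕ, p.Prime → ∃ t : ℕ, ∀ h ∈ H, ¬ p ∣ t + h) → ∀ A : ℕ, ∃ C : ℝ, ∀ N : ℕ, 2 ≤ N →
    ∃ a ∈ H, ∃ b ∈ H, a < b ∧
      (Set.ncard {n : ℕ | ε * N ≤ n ∧ n ≤ N ∧ Odd n ∧ ¬ ∃ x y z w : ℤ, ∃ p : ℕ,
        x ^ 2 + y ^ 2 + z ^ 2 + w ^ 2 = (n : ℤ) ∧
        (p : ℤ) = x ^ 2 + 3 * y ^ 2 + 5 * z ^ 2 + 7 * w ^ 2 ∧ p.Prime ∧ (p - (b - a)).Prime} : ℝ) ≤
        C * N / Real.log N ^ A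

end Pool.Agent.P.MP_0ad054_nt.BG
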