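import Pool.Agent.P.MP_0ad054_nt.BG.Defs

/-! The law of `Q2 x / nsq x` through Feynman parameters. -/

namespace Pool.Agent.P.MP_0ad054_nt.BG

open Finset MeasureTheory Complex Pool.Agent.Lib.H9 Pool.Agent.P.MP_0ad054_nt.Sun
  Pool.Agent.P.MP_0ad054_nt.Sun.SphereP

namespace FeynP

open Real in
/-- the uniform law on the circle -/
noncomputable def U : Measure ℝ :=
  ENNReal.ofReal (1 / (2 * π)) • volume.restrict (Set.Ioo (-π) π)

/-- the uniform law on the unit interval -/
noncomputable def V : Measure ℝ := volume.restrict (Set.Ioc 0 1)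

theorem probU : IsProbabilityMeasure U := by
  have h := Real.pi_pos
  constructor
  rw [U, Measure.smul_apply, Measure.restrict_apply_univ, Real.volume_Ioo, smul_eq_mul,
    ← ENNReal.ofReal_mul (by positivity), ← ENNReal.ofReal_one]
  congr 1
  field_simp
  ring

theorem probV : IsProbabilityMeasure V := by
  constructor
  rw [V, Measure.restrict_apply_univ, Real.volume_Ioc, sub_zero, ENNReal.ofReal_one]

/-- the linear function in the denominators -/
noncomputable def W (τ : ℂ) (η t : ℝ) : ℂ := -2 * I * (τ + ((t * η : ℝ) : ℂ))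

theorem W_re (τ : ℂ) (η t : ℝ) : (W τ η t).re = 2 * τ.im := by
  simp [W]

theorem W_ne {τ : ℂ} (h : 0 < τ.im) (η t : ℝ) : W τ η t ≠ 0 := by
  intro e
  have := W_re τ η t
  rw [e, zero_re] at this
  linarith

theorem W_cont (τ : ℂ) (η : ℝ) : Continuous (W τ η) := by
  unfold W
  fun_prop

theorem W_norm (τ : ℂ) (η t : ℝ) : 2 * τ.im ≤ ‖W τ η t‖ := by
  rw [← W_re τ η t]
  exact re_le_norm _

theorem gauss {w : ℂ} (hw : 0 < w.re) :
    ∫ x : ℝ, cexp (-(Real.pi * w) * (x : ℂ) ^ 2) = 1 / w ^ (1 / 2 : ℂ) := by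
  have hp : (Real.pi : ℂ) ≠ 0 := by exact_mod_cast Real.pi_ne_zero
  have h0 : w ≠ 0 := by
    rintro rfl
    simp at hw
  have ha : w.arg ≠ Real.pi := fun e => by
    have := (arg_eq_pi_iff.1 e).1
    linarith
  rw [integral_gaussian_complex (by simpa using mul_pos Real.pi_pos hw),
    show (Real.pi : ℂ) / (Real.pi * w) = w⁻¹ by field_simp, Complex.inv_cpow _ _ ha, one_div (w ^ _)]

/-- polar coordinates -/
theorem polar {τ : ℂ} (h : 0 < τ.im) (η c d : ℝ) :
    1 / W τ η c ^ (1 / 2 : ℂ) * (1 / W τ η (c + d) ^ (1 / 2 : ℂ)) =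
      ∫ f, 1 / W τ η (c + d * Real.sin f ^ 2) ∂U := by
  have hre : ∀ t, 0 < (W τ η t).re := fun t => by rw [W_re]; linarith
  have hre' : ∀ t, 0 < ((Real.pi : ℂ) * W τ η t).re := fun t => by
    simpa using mul_pos Real.pi_pos (hre t)
  have hp : (Real.pi : ℂ) ≠ 0 := by exact_mod_cast Real.pi_ne_zero
  rw [← gauss (hre c), ← gauss (hre (c + d)), ← integral_prod_mul, ← Measure.volume_eq_prod,
    ← integral_comp_polarCoord_symm]
  have e : ∀ p : ℝ × ℝ, p.1 • (cexp (-(Real.pi * W τ η c) * (((polarCoord.symm p).1 : ℝ) : ℂ) ^ 2) *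
      cexp (-(Real.pi * W τ η (c + d)) * (((polarCoord.symm p).2 : ℝ) : ℂ) ^ 2)) =
      (p.1 : ℂ) * cexp (-(Real.pi * W τ η (c + d * Real.sin p.2 ^ 2)) * (p.1 : ℂ) ^ 2) := by
    intro p
    rw [← Complex.exp_add, Complex.real_smul, polarCoord_symm_apply]
    congr 2
    have h1 : (Real.cos p.2 : ℂ) ^ 2 = 1 - (Real.sin p.2 : ℂ) ^ 2 := by
      exact_mod_cast Real.cos_sq' p.2
    simp only [W, ofReal_mul, ofReal_add, ofReal_pow, mul_pow, h1]
    ring
  simp only [e]
  have hi : Integrable (fun p : ℝ × ℝ =>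
      (p.1 : ℂ) * cexp (-(Real.pi * W τ η (c + d * Real.sin p.2 ^ 2)) * (p.1 : ℂ) ^ 2))
      ((volume.restrict (Set.Ioi 0)).prod (volume.restrict (Set.Ioo (-Real.pi) Real.pi))) := by
    have h1 : Integrable (fun x : ℝ => ‖(x : ℂ) * cexp (-(Real.pi * W τ η 0) * (x : ℂ) ^ 2)‖)
        (volume.restrict (Set.Ioi 0)) := (integrable_mul_cexp_neg_mul_sq (hre' 0)).norm.restrict
    refine (h1.comp_fst _).mono' (Continuous.aestronglyMeasurable ?_) (ae_of_all _ fun p => ?_)
    · have := W_cont τ η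
      fun_prop
    · rw [norm_mul, norm_mul, Complex.norm_exp, Complex.norm_exp]
      simp only [← ofReal_pow, mul_re, neg_re, neg_im, ofReal_re, ofReal_im, W_re, mul_zero,
        zero_mul, sub_zero, le_refl]
  rw [polarCoord_target, Measure.volume_eq_prod, ← Measure.prod_restrict, integral_prod_symm _ hi,
    U, integral_smul_measure, ENNReal.toReal_ofReal (by have := Real.pi_pos; positivity),
    ← integral_smul]
  refine integral_congr_ae (ae_of_all _ fun f => ?_)
  have h0 := W_ne h η (c + d * Real.sin f ^ 2)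
  simp only [integral_mul_cexp_neg_mul_sq (hre' _), Complex.real_smul]
  push_cast
  field_simp

/-- one Feynman parameter -/
theorem feyn {τ : ℂ} (h : 0 < τ.im) (η s t : ℝ) :
    ∫ u, 1 / W τ η (u * s + (1 - u) * t) ^ 2 ∂V = 1 / W τ η s * (1 / W τ η t) := by
  have e : ∀ u : ℝ, W τ η (u * s + (1 - u) * t) = W τ η t + u * (W τ η s - W τ η t) := by
    intro u
    simp only [W]
    push_cast
    ring
  have hs := W_ne h η s
  have ht := W_ne h η t
  have hd : ∀ u ∈ Set.uIcc (0 : ℝ) 1, HasDerivAt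
      (fun u : ℝ => (u : ℂ) / (W τ η t * (W τ η t + u * (W τ η s - W τ η t))))
      (1 / W τ η (u * s + (1 - u) * t) ^ 2) u := by
    intro u _
    have h0 : W τ η t + u * (W τ η s - W τ η t) ≠ 0 := e u ▸ W_ne h η _
    have h1 := ((hasDerivAt_id (u : ℂ)).div ((((hasDerivAt_id (u : ℂ)).mul_const
      (W τ η s - W τ η t)).const_add (W τ η t)).const_mul (W τ η t)) (mul_ne_zero ht h0)).comp_ofReal
    refine h1.congr_deriv ?_
    rw [e]
    simp only [id]
    field_simp
    ring
  have hc : Continuous fun u : ℝ => 1 / W τ η (u * s + (1 - u) * t) ^ 2 := by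
    have := W_cont τ η
    exact continuous_const.div (by fun_prop) fun u => pow_ne_zero _ (W_ne h η _)
  rw [V, ← intervalIntegral.integral_of_le zero_le_one,
    intervalIntegral.integral_eq_sub_of_hasDerivAt hd (hc.intervalIntegrable _ _)]
  push_cast
  rw [one_mul, add_sub_cancel, zero_div, sub_zero]
  field_simp

/-- the value of the quotient -/
noncomputable def lam (p : (ℝ × ℝ) × ℝ) : ℝ :=
  p.2 * (1 + 2 * Real.sin p.1.1 ^ 2) + (1 - p.2) * (7 + -2 * Real.sin p.1.2 ^ 2)

theorem lam_cont : Continuous lam := by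
  unfold lam
  fun_prop

theorem sin_sq_le {f : ℝ} (hf : f ∈ Set.Icc (-1 / 2 : ℝ) (1 / 2)) : Real.sin f ^ 2 ≤ 1 / 4 := by
  have h1 := Real.sin_sq_le_sq (x := f)
  nlinarith [hf.1, hf.2]

theorem slice {a b : ℝ} (ha : 3 / 2 ≤ a) (hab : a ≤ b) (hb : b ≤ 13 / 2) {f : ℝ × ℝ}
    (hf : f ∈ Set.Icc (-1 / 2 : ℝ) (1 / 2) ×ˢ Set.Icc (-1 / 2 : ℝ) (1 / 2)) :
    ENNReal.ofReal ((b - a) / 6) ≤ V (Prod.mk f ⁻¹' (lam ⁻¹' Set.Icc a b)) := by
  have h1 := sin_sq_le hf.1
  have h2 := sin_sq_le hf.2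
  have h3 := sq_nonneg (Real.sin f.1)
  have h4 := sq_nonneg (Real.sin f.2)
  set x := 1 + 2 * Real.sin f.1 ^ 2 with hx
  set y := 7 + -2 * Real.sin f.2 ^ 2 with hy
  have hD : 0 < y - x := by linarith
  have hsub : Set.Ioc ((y - b) / (y - x)) ((y - a) / (y - x)) ⊆
      Prod.mk f ⁻¹' (lam ⁻¹' Set.Icc a b) ∩ Set.Ioc 0 1 := by
    intro u hu
    have h5 := (div_lt_iff₀ hD).1 hu.1
    have h6 := (le_div_iff₀ hD).1 hu.2
    refine ⟨⟨?_, ?_⟩, lt_of_le_of_lt (div_nonneg (by linarith) hD.le) hu.1,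
      hu.2.trans ((div_le_one hD).2 (by linarith))⟩
    · show a ≤ u * x + (1 - u) * y
      linarith
    · show u * x + (1 - u) * y ≤ b
      linarith
  rw [V, Measure.restrict_apply' measurableSet_Ioc]
  refine le_trans ?_ (measure_mono hsub)
  rw [Real.volume_Ioc, ← sub_div]
  refine ENNReal.ofReal_le_ofReal ?_
  rw [show y - a - (y - b) = b - a by ring]
  exact div_le_div_of_nonneg_left (by linarith) hD (by linarith)

theorem U_box : U (Set.Icc (-1 / 2 : ℝ) (1 / 2)) = ENNReal.ofReal (1 / (2 * Real.pi)) := by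
  have h := Real.pi_gt_three
  rw [U, Measure.smul_apply, Measure.restrict_apply measurableSet_Icc, Set.inter_eq_left.2
    (Set.Icc_subset_Ioo (by linarith) (by linarith)), Real.volume_Icc, smul_eq_mul]
  norm_num

end FeynP

open FeynP in
theorem pFeyn : S_Feyn := by
  have := probU
  have := probV
  have hm : Measurable lam := lam_cont.measurable
  have hP : IsProbabilityMeasure (((U.prod U).prod V).map lam) :=
    Measure.isProbabilityMeasure_map hm.aemeasurable
  refine ⟨((U.prod U).prod V).map lam, hP, ?_, ?_, ?_⟩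
  · rw [ae_map_iff hm.aemeasurable (measurableSet_Icc (a := (1 : ℝ)) (b := 7))]
    have h : ∀ᵐ u ∂V, u ∈ Set.Ioc (0 : ℝ) 1 := ae_restrict_mem measurableSet_Ioc
    filter_upwards [Measure.quasiMeasurePreserving_snd.ae h] with p hp
    have h1 := Real.sin_sq_le_one p.1.1
    have h2 := Real.sin_sq_le_one p.1.2
    have h3 := sq_nonneg (Real.sin p.1.1)
    have h4 := sq_nonneg (Real.sin p.1.2)
    have h5 := hp.1.le
    have h6 := sub_nonneg.2 hp.2
    unfold lam
    constructor <;> nlinarith [mul_nonneg h5 h3, mul_nonneg h6 h4, mul_nonneg h5 (sub_nonneg.2 h1),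
      mul_nonneg h6 (sub_nonneg.2 h2)]
  · intro a b ha hab hb
    have hp := Real.pi_pos
    have hq := Real.pi_lt_d2
    rw [Measure.real, ← ENNReal.ofReal_le_iff_le_toReal (measure_ne_top _ _),
      Measure.map_apply hm measurableSet_Icc, Measure.prod_apply (hm measurableSet_Icc)]
    refine le_trans ?_ (lintegral_mono (f := (Set.Icc (-1 / 2 : ℝ) (1 / 2) ×ˢ
      Set.Icc (-1 / 2 : ℝ) (1 / 2)).indicator fun _ => ENNReal.ofReal ((b - a) / 6))
      fun f => Set.indicator_le (fun f hf => slice ha hab hb hf) f)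
    rw [lintegral_indicator_const (measurableSet_Icc.prod measurableSet_Icc), Measure.prod_prod,
      U_box, ← ENNReal.ofReal_mul (by positivity), ← ENNReal.ofReal_mul (by linarith)]
    refine ENNReal.ofReal_le_ofReal ?_
    rw [show (b - a) / 6 * (1 / (2 * Real.pi) * (1 / (2 * Real.pi))) =
      (b - a) / (24 * Real.pi ^ 2) by field_simp; ring]
    exact div_le_div_of_nonneg_left (by linarith) (by positivity) (by nlinarith)
  · intro τ η h
    have hc : Continuous fun t : ℝ => 1 / W τ η t ^ 2 :=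
      continuous_const.div ((W_cont τ η).pow 2) fun u => pow_ne_zero _ (W_ne h η _)
    have hi : Integrable (fun p => 1 / W τ η (lam p) ^ 2) ((U.prod U).prod V) := by
      refine Integrable.of_bound (hc.comp lam_cont).aestronglyMeasurable (1 / (2 * τ.im) ^ 2)
        (ae_of_all _ fun p => ?_)
      rw [norm_div, norm_one, norm_pow]
      exact one_div_le_one_div_of_le (by positivity)
        (pow_le_pow_left₀ (by positivity) (W_norm τ η _) 2)
    show ∏ j : Fin 4, 1 / W τ η (cc j) ^ (1 / 2 : ℂ) = ∫ t : ℝ, 1 / W τ η t ^ 2 ∂_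
    rw [integral_map hm.aemeasurable hc.aestronglyMeasurable, integral_prod _ hi]
    simp only [lam, feyn h]
    rw [integral_prod_mul (fun f => 1 / W τ η (1 + 2 * Real.sin f ^ 2))
      (fun f => 1 / W τ η (7 + -2 * Real.sin f ^ 2)), ← polar h, ← polar h, Fin.prod_univ_four]
    have e0 : ((cc 0 : ℚ) : ℝ) = 1 := by simp [cc]
    have e1 : ((cc 1 : ℚ) : ℝ) = 1 + 2 := by simp [cc]; norm_num
    have e2 : ((cc 2 : ℚ) : ℝ) = 7 + -2 := by simp [cc]; norm_num
    have e3 : ((cc 3 : ℚ) : ℝ) = 7 := by simp [cc]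
    rw [e0, e1, e2, e3]
    ring

end Pool.Agent.P.MP_0ad054_nt.BG
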