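import Pool.Agent.P.MP_0ad054_nt.BG.Defs

/-! The finite Ramsey theorem for pairs. -/

namespace Pool.Agent.P.MP_0ad054_nt.BG

open Finset MeasureTheory Complex Pool.Agent.Lib.H9 Pool.Agent.P.MP_0ad054_nt.Sun
  Pool.Agent.P.MP_0ad054_nt.Sun.SphereP

namespace RamseyP

theorem chain (κ : Type) [Fintype κ] (m : ℕ) : ∃ R : ℕ, ∀ (S : Finset ℕ) (col : ℕ → ℕ → κ),
    R ≤ S.card → ∃ T ⊆ S, T.card = m ∧ ∃ g : ℕ → κ,
      ∀ x ∈ T, ∀ y ∈ T, x < y → col x y = g x := by
  classical
  induction m with
  | zero =>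
    exact ⟨0, fun S col _ => ⟨∅, empty_subset _, rfl, fun x => col x 0, by simp⟩⟩
  | succ m ih =>
    obtain ⟨R, hR⟩ := ih
    refine ⟨Fintype.card κ * R + 2, fun S col hS => ?_⟩
    have hne : S.Nonempty := by
      rw [← card_pos]; omega
    set a := S.min' hne with ha
    have haS : a ∈ S := S.min'_mem hne
    have hcard : (univ : Finset κ).card * R < (S.erase a).card := by
      rw [card_erase_of_mem haS, card_univ]; omega
    obtain ⟨c, -, hc⟩ := exists_lt_card_fiber_of_mul_lt_card_of_maps_to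
      (s := S.erase a) (t := univ) (f := fun y => col a y) (fun _ _ => mem_univ _) hcard
    obtain ⟨T, hT, hTc, g, hg⟩ := hR _ col hc.le
    have hT1 : ∀ y ∈ T, y ≠ a ∧ y ∈ S ∧ col a y = c := by
      intro y hy
      have h1 := mem_filter.1 (hT hy)
      have h2 := mem_erase.1 h1.1
      exact ⟨h2.1, h2.2, h1.2⟩
    have haT : a ∉ T := fun h => (hT1 a h).1 rfl
    refine ⟨insert a T, ?_, ?_, fun x => if x = a then c else g x, ?_⟩
    · intro y hy
      rcases mem_insert.1 hy with rfl | hy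
      · exact haS
      · exact (hT1 y hy).2.1
    · rw [card_insert_of_notMem haT, hTc]
    · intro x hx y hy hxy
      rcases mem_insert.1 hx with hx | hx
      · rcases mem_insert.1 hy with hy | hy
        · omega
        · rw [hx]; simpa using (hT1 y hy).2.2
      · have hxa := (hT1 x hx).1
        rcases mem_insert.1 hy with hy | hy
        · have := S.min'_le x (hT1 x hx).2.1
          omega
        · simpa [hxa] using hg x hx y hy hxy

end RamseyP

theorem pRamsey : S_Ramsey := by
  classical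
  intro κ _ K
  obtain ⟨R, hR⟩ := RamseyP.chain κ (Fintype.card κ * K + 1)
  refine ⟨R, fun S col hS => ?_⟩
  obtain ⟨T, hT, hTc, g, hg⟩ := hR S col hS
  have hcard : (univ : Finset κ).card * K < T.card := by
    rw [hTc, card_univ]; omega
  obtain ⟨c, -, hc⟩ := exists_lt_card_fiber_of_mul_lt_card_of_maps_to
    (s := T) (t := univ) (f := g) (fun _ _ => mem_univ _) hcard
  obtain ⟨S', hS', hS'c⟩ := exists_subset_card_eq hc.le
  refine ⟨S', fun x hx => hT (mem_filter.1 (hS' hx)).1, hS'c, c, fun x hx y hy hxy => ?_⟩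
  have h1 := mem_filter.1 (hS' hx)
  have h2 := mem_filter.1 (hS' hy)
  rw [hg x h1.1 y h2.1 hxy, h1.2]

end Pool.Agent.P.MP_0ad054_nt.BG
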